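import Pool.Agent.W_7d29a1_LE.LeF
import Pool.Agent.W_7d29a1_h47.SiteG
import Pool.Agent.W_7d29a1_t2.Cube36

/-!
MP_7d29a1_pr, row 621: THE DOUBLING INEQUALITY for the log-Laplace transform of a free energy of finitely many
independent sites, all laws with exponential moments. (paper: helper16; typed by helper84)
-/

namespace Pool.Agent.W_7d29a1_LE

open MeasureTheory Set
open Pool.Agent.W_7d29a1_h47 (EM Nondeg exists_gap)
open Pool.Agent.W7d29a1T2 (FE up)
open Pool.Agent.W7d29a1Cube36 (Zf Zf_pos FE_eq FE_le_add FE_mono grad grad_nonneg grad_le_one FE_convex)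

noncomputable section

section FE

variable {n : ℕ} {κ : Type} [Fintype κ] {c : κ → ℝ} {A : κ → Finset (Fin n)}

lemma measurable_FE' : Measurable (FE c A) := by
  unfold FE
  fun_prop

lemma measurable_grad (i : Fin n) : Measurable fun x => grad c A x i := by
  classical
  unfold grad Zf
  apply Measurable.div
  · apply Finset.measurable_sum
    intro k _
    split_ifs
    · fun_prop
    · exact measurable_const
  · fun_prop

lemma sum_update_diff (x : Fin n → ℝ) (i : Fin n) (g : Fin n → ℝ) (s t : ℝ) :
    ∑ j, g j * (Function.update x i t j - Function.update x i s j) = g i * (t - s) := by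
  rw [Finset.sum_eq_single i]
  · simp
  · intro j _ hj
    rw [Function.update_of_ne hj, Function.update_of_ne hj]
    ring
  · intro h
    exact absurd (Finset.mem_univ i) h

/-- Free energies of sums of path weights belong to the class. -/
theorem Pot_FE (hc : ∀ k, 0 ≤ c k) (hc' : ∃ k, 0 < c k) : Pot (FE c A) (fun i x => grad c A x i) := by
  classical
  refine ⟨measurable_FE', fun i => measurable_grad i, ?_, fun i x => grad_nonneg hc hc' x i,
    fun i x => grad_le_one hc hc' x i, fun i x s t hst => ?_, fun i x s t hst => ?_, fun i x s t hst => ?_⟩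
  · refine ⟨|FE c A 0|, abs_nonneg _, fun x => ?_⟩
    have hk : ∀ k, |∑ i ∈ A k, x i| ≤ ∑ i, |x i| := fun k =>
      (Finset.abs_sum_le_sum_abs _ _).trans
        (Finset.sum_le_sum_of_subset_of_nonneg (Finset.subset_univ _) fun _ _ _ => abs_nonneg _)
    have h1 : FE c A x ≤ FE c A 0 + ∑ i, |x i| := FE_le_add hc hc' fun k => by
      have := (le_abs_self _).trans (hk k)
      simpa using this
    have h2 : FE c A 0 ≤ FE c A x + ∑ i, |x i| := FE_le_add hc hc' fun k => by
      have := (abs_le.1 (hk k)).1
      simp only [Pi.zero_apply, Finset.sum_const_zero]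
      linarith
    have h3 := le_abs_self (FE c A 0)
    have h4 := neg_abs_le (FE c A 0)
    rw [abs_le]
    constructor <;> linarith
  · have h := FE_convex hc hc' (A := A) (Function.update x i s) (Function.update x i t)
    rw [sum_update_diff x i (grad c A (Function.update x i s)) s t] at h
    linarith
  · have h := FE_convex hc hc' (A := A) (Function.update x i t) (Function.update x i s)
    rw [sum_update_diff x i (grad c A (Function.update x i t)) t s] at h
    nlinarith
  · have hZs := Zf_pos hc hc' (A := A) (Function.update x i s)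
    have hZt := Zf_pos hc hc' (A := A) (Function.update x i t)
    have hmono : Zf c A (Function.update x i s) ≤ Zf c A (Function.update x i t) := by
      unfold Zf
      apply Finset.sum_le_sum
      intro k _
      apply mul_le_mul_of_nonneg_left _ (hc k)
      apply Real.exp_le_exp.2
      apply Finset.sum_le_sum
      intro j _
      by_cases hj : j = i
      · rw [hj]
        simpa using hst
      · rw [Function.update_of_ne hj, Function.update_of_ne hj]
    have hnum : (∑ k, if i ∈ A k then c k * Real.exp (∑ j ∈ A k, Function.update x i t j) else 0) =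
        Real.exp (t - s) * ∑ k, if i ∈ A k then c k * Real.exp (∑ j ∈ A k, Function.update x i s j) else 0 := by
      rw [Finset.mul_sum]
      apply Finset.sum_congr rfl
      intro k _
      split_ifs with hik
      · have e1 : ∑ j ∈ A k, Function.update x i t j = (t - s) + ∑ j ∈ A k, Function.update x i s j := by
          rw [← Finset.sum_erase_add _ _ hik, ← Finset.sum_erase_add (A k) _ hik]
          have e2 : ∑ j ∈ (A k).erase i, Function.update x i t j =
              ∑ j ∈ (A k).erase i, Function.update x i s j := by
            apply Finset.sum_congr rfl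
            intro j hj
            rw [Function.update_of_ne (Finset.ne_of_mem_erase hj),
              Function.update_of_ne (Finset.ne_of_mem_erase hj)]
          rw [e2]
          simp
          ring
        rw [e1, Real.exp_add]
        ring
      · simp
    have hnum0 : 0 ≤ ∑ k, if i ∈ A k then c k * Real.exp (∑ j ∈ A k, Function.update x i s j) else 0 := by
      apply Finset.sum_nonneg
      intro k _
      split_ifs
      · exact mul_nonneg (hc k) (Real.exp_pos _).le
      · exact le_rfl
    show grad c A (Function.update x i t) i ≤ Real.exp (t - s) * grad c A (Function.update x i s) i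
    unfold grad
    rw [hnum, mul_div_assoc]
    apply mul_le_mul_of_nonneg_left _ (Real.exp_pos _).le
    exact div_le_div_of_nonneg_left hnum0 hZs hmono

end FE

/-- The log-Laplace transform of a centred random variable. -/
def psi {Ω : Type*} [MeasurableSpace Ω] (P : Measure Ω) (F : Ω → ℝ) (t : ℝ) : ℝ :=
  Real.log (∫ x, Real.exp (t * (F x - ∫ y, F y ∂P)) ∂P)

/-- THE DOUBLING INEQUALITY, finitely many independent sites. -/
theorem LE_pi {μ : Measure ℝ} [IsProbabilityMeasure μ] (hμ : EM μ) (hnd : Nondeg μ) :
    ∃ a : ℝ, 0 < a ∧ ∀ (n : ℕ) (κ : Type) [Fintype κ] (c : κ → ℝ) (A : κ → Finset (Fin n)),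
      (∀ k, 0 ≤ c k) → (∃ k, 0 < c k) → ∀ t : ℝ, 0 < t → t ≤ 1 / 2 →
      (2 + a) * psi (Measure.pi fun _ : Fin n => μ) (FE c A) t ≤
        psi (Measure.pi fun _ : Fin n => μ) (FE c A) (2 * t) := by
  obtain ⟨xm, xp, hx, hqm, hqp⟩ := exists_gap hnd
  obtain ⟨C, hC0, hC⟩ := entropy_ineq hμ hx (lt_min hqm hqp) (min_le_left _ _) (min_le_right _ _)
  refine ⟨1 / (C + 1), by positivity, ?_⟩
  intro n κ inst c A hc hc' t ht0 ht1
  have ht0' : 0 ≤ t := ht0.le
  have hPot := Pot_FE (A := A) hc hc'
  set F := FE c A with hF
  set P : Measure (Fin n → ℝ) := Measure.pi fun _ : Fin n => μ with hP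
  set m := ∫ y, F y ∂P with hm
  have hmain := hC t ht0 (by linarith) n F (fun i x => grad c A x i) hPot F F hPot.GrF hPot.GrF
    (fun x a => FE_convex hc hc' x a)
  rw [← hP, ← hm] at hmain
  set E := EE μ t F F with hE
  have hZ1 := ZZ_pos hμ hPot ht0'
  have hZ2 := ZZ_pos hμ hPot (t := 2 * t) (by linarith)
  have hpsi : ∀ s : ℝ, 0 ≤ s → psi P F s = Real.log (ZZ μ s F) - s * m := by
    intro s hs
    have e1 : ∫ x, Real.exp (s * (F x - ∫ y, F y ∂P)) ∂P = ZZ μ s F * Real.exp (-(s * m)) := by
      unfold ZZ
      rw [← integral_mul_const]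
      apply integral_congr_ae
      filter_upwards with x
      rw [← Real.exp_add]
      congr 1
      rw [← hm]
      ring
    unfold psi
    rw [e1, Real.log_mul (ZZ_pos hμ hPot hs).ne' (Real.exp_pos _).ne', Real.log_exp]
    ring
  rw [hpsi t ht0', hpsi (2 * t) (by linarith)]
  -- Gibbs inequality at `2 t`
  have hgibbs : Real.exp (t * E) * ZZ μ t F ≤ ZZ μ (2 * t) F := by
    have gE := hPot.GrE ht0'
    have gFE := hPot.GrF.mul gE
    have h1 : ∫ x, Real.exp (t * E) * (1 - t * E) * Real.exp (t * F x) +
        Real.exp (t * E) * t * (F x * Real.exp (t * F x)) ∂P ≤ ZZ μ (2 * t) F := by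
      apply integral_mono
      · exact (((Gr.const _).mul gE).add ((Gr.const _).mul gFE)).integrable hμ
      · exact (hPot.GrE (t := 2 * t) (by linarith)).integrable hμ
      · intro x
        have h2 := mul_le_mul_of_nonneg_left (tangent (t * F x) (t * E)) (Real.exp_pos (t * F x)).le
        have h3 : Real.exp (t * F x) * Real.exp (t * F x) = Real.exp (2 * t * F x) := by
          rw [← Real.exp_add]
          congr 1
          ring
        rw [h3] at h2
        refine le_trans (le_of_eq ?_) h2
        ring
    rw [integral_add (((Gr.const _).mul gE).integrable hμ) (((Gr.const _).mul gFE).integrable hμ),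
      integral_const_mul, integral_const_mul] at h1
    have e1 : ∫ x, Real.exp (t * F x) ∂P = ZZ μ t F := rfl
    have e2 : ∫ x, F x * Real.exp (t * F x) ∂P = E * ZZ μ t F := (EE_mul hμ hPot ht0' F).symm
    rw [e1, e2] at h1
    refine le_trans (le_of_eq ?_) h1
    ring
  have hlog : t * E + Real.log (ZZ μ t F) ≤ Real.log (ZZ μ (2 * t) F) := by
    have h1 := Real.log_le_log (mul_pos (Real.exp_pos _) hZ1) hgibbs
    rwa [Real.log_mul (Real.exp_pos _).ne' hZ1.ne', Real.log_exp] at h1
  -- conclusion
  set L := Real.log (ZZ μ t F) with hL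
  have h1 : t * (E - m) ≤ C * (t * E - L) := by
    have h2 : E - C / t * (t * E - L) ≤ m := hmain
    have h3 : t * (E - m) ≤ t * (C / t * (t * E - L)) := mul_le_mul_of_nonneg_left (by linarith) ht0'
    have h4 : t * (C / t * (t * E - L)) = C * (t * E - L) := by
      field_simp
    linarith
  -- the entropy is nonnegative
  have hent : Real.exp (-(t * E)) * ZZ μ t F ≤ 1 := by
    have gE := hPot.GrE ht0'
    have gFE := hPot.GrF.mul gE
    have h1 : ∫ x, Real.exp (-(t * E)) * (1 + t * E) * Real.exp (t * F x) +
        Real.exp (-(t * E)) * (-t) * (F x * Real.exp (t * F x)) ∂P ≤ ∫ _x, (1 : ℝ) ∂P := by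
      apply integral_mono
      · exact (((Gr.const _).mul gE).add ((Gr.const _).mul gFE)).integrable hμ
      · exact integrable_const _
      · intro x
        have h2 := mul_le_mul_of_nonneg_left (tangent (-(t * F x)) (-(t * E))) (Real.exp_pos (t * F x)).le
        have h3 : Real.exp (t * F x) * Real.exp (-(t * F x)) = 1 := by
          rw [← Real.exp_add]
          simp
        rw [h3] at h2
        refine le_trans (le_of_eq ?_) h2
        ring
    rw [integral_add (((Gr.const _).mul gE).integrable hμ) (((Gr.const _).mul gFE).integrable hμ),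
      integral_const_mul, integral_const_mul] at h1
    have e1 : ∫ x, Real.exp (t * F x) ∂P = ZZ μ t F := rfl
    have e2 : ∫ x, F x * Real.exp (t * F x) ∂P = E * ZZ μ t F := (EE_mul hμ hPot ht0' F).symm
    rw [e1, e2] at h1
    simp only [integral_const, probReal_univ, smul_eq_mul, mul_one] at h1
    refine le_trans (le_of_eq ?_) h1
    ring
  have hH : 0 ≤ t * E - L := by
    have h1 := Real.log_le_log (mul_pos (Real.exp_pos _) hZ1) hent
    rw [Real.log_mul (Real.exp_pos _).ne' hZ1.ne', Real.log_exp, Real.log_one] at h1
    linarith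
  have h2 : L - t * m ≤ (C + 1) * (t * E - L) := by nlinarith
  have h3 : 1 / (C + 1) * (L - t * m) ≤ t * E - L := by
    rw [div_mul_eq_mul_div, one_mul, div_le_iff₀ (by positivity)]
    linarith
  linarith

end

end Pool.Agent.W_7d29a1_LE
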