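import Pool.Agent.W_7d29a1_LE.LeG
import Pool.Agent.W_7d29a1_t2.RedG

/-!
MP_7d29a1_pr, row 621: THE DOUBLING INEQUALITY on the law of the environment for sums of path weights and the
exponential lower tail relative to the mean. (paper: helper16; typed by helper84)
-/

namespace Pool.Agent.W_7d29a1_LE

open MeasureTheory Set
open Pool.Agent.W_7d29a1_h47 (EM Nondeg exists_gap)
open Pool.Agent.W7d29a1T2 (FE up)
open Pool.Agent.W_7d29a1_F (Pt Env law)
open Pool.Agent.W_7d29a1_h4g (Poly)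
open Pool.Agent.W_7d29a1_t2 (poly_FE)

noncomputable section

variable {μ : Measure ℝ} [IsProbabilityMeasure μ]

/-- Exponential moments of the logarithm of a sum of path weights. -/
theorem poly_exp_int (hμ : EM μ) {S : Set Pt} {G : Env → ℝ} (hP : Poly S G) (hG : ∀ η, 0 < G η) {t : ℝ}
    (ht : 0 ≤ t) : Integrable (fun η => Real.exp (t * Real.log (G η))) (law μ) := by
  obtain ⟨n, N, c, A, r, hr, hmap, hc, hc', he⟩ := poly_FE (μ := μ) hP hG
  have h1 : Integrable (fun x => Real.exp (t * FE c A x)) ((law μ).map r) := by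
    rw [hmap]
    exact ((Pot_FE (A := A) hc hc').GrE ht).integrable hμ
  have h2 := h1.comp_measurable hr
  refine h2.congr (Filter.Eventually.of_forall fun η => ?_)
  show Real.exp (t * FE c A (r η)) = Real.exp (t * Real.log (G η))
  rw [he]

theorem poly_log_int (hμ : EM μ) {S : Set Pt} {G : Env → ℝ} (hP : Poly S G) (hG : ∀ η, 0 < G η) :
    Integrable (fun η => Real.log (G η)) (law μ) := by
  obtain ⟨n, N, c, A, r, hr, hmap, hc, hc', he⟩ := poly_FE (μ := μ) hP hG
  have h1 : Integrable (fun x => FE c A x) ((law μ).map r) := by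
    rw [hmap]
    exact (Pot_FE (A := A) hc hc').GrF.integrable hμ
  have h2 := h1.comp_measurable hr
  refine h2.congr (Filter.Eventually.of_forall fun η => ?_)
  show FE c A (r η) = Real.log (G η)
  rw [he]

/-- THE DOUBLING INEQUALITY for the logarithm of a sum of path weights. -/
theorem LE_law (hμ : EM μ) (hnd : Nondeg μ) : ∃ a : ℝ, 0 < a ∧ ∀ (S : Set Pt) (G : Env → ℝ), Poly S G →
    (∀ η, 0 < G η) → ∀ t : ℝ, 0 < t → t ≤ 1 / 2 →
    (2 + a) * psi (law μ) (fun η => Real.log (G η)) t ≤ psi (law μ) (fun η => Real.log (G η)) (2 * t) := by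
  obtain ⟨a, ha, hLE⟩ := LE_pi hμ hnd
  refine ⟨a, ha, fun S G hP hG t ht0 ht1 => ?_⟩
  obtain ⟨n, N, c, A, r, hr, hmap, hc, hc', he⟩ := poly_FE (μ := μ) hP hG
  have hm : ∫ η, Real.log (G η) ∂(law μ) = ∫ x, FE c A x ∂(Measure.pi fun _ : Fin n => μ) := by
    rw [← hmap, integral_map hr.aemeasurable (measurable_FE' (c := c) (A := A)).aestronglyMeasurable]
    simp_rw [he]
  have hpsi : ∀ s : ℝ, psi (law μ) (fun η => Real.log (G η)) s =
      psi (Measure.pi fun _ : Fin n => μ) (FE c A) s := by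
    intro s
    unfold psi
    congr 1
    rw [hm]
    set m := ∫ x, FE c A x ∂(Measure.pi fun _ : Fin n => μ)
    have h1 : Measurable fun x : Fin n → ℝ => Real.exp (s * (FE c A x - m)) :=
      Real.measurable_exp.comp (((measurable_FE' (c := c) (A := A)).sub_const m).const_mul s)
    rw [← hmap, integral_map hr.aemeasurable h1.aestronglyMeasurable]
    simp_rw [he]
  rw [hpsi, hpsi]
  exact hLE n (Fin N) c A hc hc' t ht0 ht1

/-- The log-Laplace transform in terms of the moments. -/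
lemma psi_eq (hμ : EM μ) {S : Set Pt} {G : Env → ℝ} (hP : Poly S G) (hG : ∀ η, 0 < G η) {t : ℝ} (ht : 0 ≤ t) :
    psi (law μ) (fun η => Real.log (G η)) t =
      Real.log (∫ η, Real.exp (t * Real.log (G η)) ∂(law μ)) - t * ∫ η, Real.log (G η) ∂(law μ) := by
  unfold psi
  set m := ∫ η, Real.log (G η) ∂(law μ)
  have e1 : ∫ η, Real.exp (t * (Real.log (G η) - m)) ∂(law μ) =
      (∫ η, Real.exp (t * Real.log (G η)) ∂(law μ)) * Real.exp (-(t * m)) := by
    rw [← integral_mul_const]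
    apply integral_congr_ae
    filter_upwards with η
    rw [← Real.exp_add]
    congr 1
    ring
  have hpos : 0 < ∫ η, Real.exp (t * Real.log (G η)) ∂(law μ) := integral_exp_pos (poly_exp_int hμ hP hG ht)
  rw [e1, Real.log_mul hpos.ne' (Real.exp_pos _).ne', Real.log_exp]
  ring

/-- Moments of smaller order. -/
lemma moment_mono (hμ : EM μ) {S : Set Pt} {G : Env → ℝ} (hP : Poly S G) (hG : ∀ η, 0 < G η) {t t' L : ℝ}
    (ht : 0 < t) (htt : t ≤ t') (hL : ∫ η, Real.exp (t' * Real.log (G η)) ∂(law μ) ≤ Real.exp L) :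
    ∫ η, Real.exp (t * Real.log (G η)) ∂(law μ) ≤ Real.exp (t / t' * L) := by
  have ht' : 0 < t' := lt_of_lt_of_le ht htt
  set θ := t / t' with hθ
  have hθ0 : 0 < θ := by positivity
  have hθ1 : θ ≤ 1 := by
    rw [hθ, div_le_one ht']
    exact htt
  have h1 : ∀ η, Real.exp (t * Real.log (G η)) ≤
      Real.exp (θ * L) * (θ * (Real.exp (t' * Real.log (G η)) * Real.exp (-L)) + (1 - θ)) := by
    intro η
    set u := t' * Real.log (G η) with hu
    have h2 := convexOn_exp.2 (mem_univ (u - L)) (mem_univ (0 : ℝ)) hθ0.le (by linarith : (0 : ℝ) ≤ 1 - θ)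
      (by ring)
    simp only [smul_eq_mul, mul_zero, add_zero, Real.exp_zero, mul_one] at h2
    have h3 : Real.exp (t * Real.log (G η)) = Real.exp (θ * L) * Real.exp (θ * (u - L)) := by
      rw [← Real.exp_add]
      congr 1
      rw [hu, hθ]
      field_simp
      ring
    have h4 : Real.exp (u - L) = Real.exp u * Real.exp (-L) := by
      rw [← Real.exp_add]
      congr 1
    rw [h3, ← h4]
    exact mul_le_mul_of_nonneg_left h2 (Real.exp_pos _).le
  have i1 := poly_exp_int hμ hP hG ht.le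
  have i2 := poly_exp_int hμ hP hG ht'.le
  have h5 : ∫ η, Real.exp (t * Real.log (G η)) ∂(law μ) ≤
      ∫ η, Real.exp (θ * L) * (θ * (Real.exp (t' * Real.log (G η)) * Real.exp (-L)) + (1 - θ)) ∂(law μ) := by
    apply integral_mono i1 _ h1
    exact ((((i2.mul_const _).const_mul θ).add (integrable_const _)).const_mul _)
  have i3 : Integrable (fun η => θ * (Real.exp (t' * Real.log (G η)) * Real.exp (-L))) (law μ) :=
    (i2.mul_const _).const_mul θ
  rw [integral_const_mul, integral_add i3 (integrable_const _), integral_const_mul, integral_mul_const] at h5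
  simp only [integral_const, probReal_univ, smul_eq_mul, one_mul] at h5
  refine h5.trans ?_
  have h6 : (∫ η, Real.exp (t' * Real.log (G η)) ∂(law μ)) * Real.exp (-L) ≤ 1 := by
    have h7 := mul_le_mul_of_nonneg_right hL (Real.exp_pos (-L)).le
    have h8 : Real.exp L * Real.exp (-L) = 1 := by
      rw [← Real.exp_add]
      simp
    rwa [h8] at h7
  have h9 := Real.exp_pos (θ * L)
  nlinarith [mul_le_mul_of_nonneg_left h6 hθ0.le]

/-- EXPONENTIAL LOWER TAIL RELATIVE TO THE MEAN: an exponential bound of the luck `log G` at the scale `1 / t1` gives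
the moment `exp (- t e / 2)` of order `t = t1 / 2 ^ k`, `e = - E log G`. -/
theorem LE_tail (hμ : EM μ) (hnd : Nondeg μ) : ∃ k : ℕ, ∀ (S : Set Pt) (G : Env → ℝ), Poly S G →
    (∀ η, 0 < G η) → ∀ t1 c1 : ℝ, 0 < t1 → t1 ≤ 1 → 0 ≤ c1 →
    ∫ η, Real.exp (t1 * Real.log (G η)) ∂(law μ) ≤ Real.exp c1 → 0 ≤ -∫ η, Real.log (G η) ∂(law μ) →
    ∫ η, Real.exp (t1 / 2 ^ k * Real.log (G η)) ∂(law μ) ≤
      Real.exp c1 * Real.exp (-(t1 / 2 ^ k * (-∫ η, Real.log (G η) ∂(law μ)) / 2)) := by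
  obtain ⟨a, ha, hLE⟩ := LE_law hμ hnd
  obtain ⟨k, hk⟩ : ∃ k : ℕ, (2 / (2 + a)) ^ k < 1 / 2 := by
    apply exists_pow_lt_of_lt_one (by norm_num)
    rw [div_lt_one (by positivity)]
    linarith
  refine ⟨k, fun S G hP hG t1 c1 ht0 ht1 hc1 hmom he => ?_⟩
  set ψ := psi (law μ) (fun η => Real.log (G η)) with hψ
  set m := ∫ η, Real.log (G η) ∂(law μ) with hm
  have hiter : ∀ j : ℕ, (2 + a) ^ j * ψ (t1 / 2 ^ j) ≤ ψ t1 := by
    intro j
    induction j with
    | zero => simp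
    | succ j ih =>
      refine le_trans ?_ ih
      have h1 := hLE S G hP hG (t1 / 2 ^ (j + 1)) (by positivity) (by
        rw [div_le_div_iff₀ (by positivity) (by norm_num), pow_succ]
        have : (1 : ℝ) ≤ 2 ^ j := one_le_pow₀ (by norm_num)
        nlinarith)
      have h2 : 2 * (t1 / 2 ^ (j + 1)) = t1 / 2 ^ j := by
        rw [pow_succ]
        field_simp
      rw [h2] at h1
      have h3 := mul_le_mul_of_nonneg_left h1 (by positivity : (0 : ℝ) ≤ (2 + a) ^ j)
      refine le_trans (le_of_eq ?_) h3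
      rw [pow_succ]
      ring
  have hpos1 : 0 < ∫ η, Real.exp (t1 * Real.log (G η)) ∂(law μ) := integral_exp_pos (poly_exp_int hμ hP hG ht0.le)
  have ht' : 0 < t1 / 2 ^ k := by positivity
  have hpos2 : 0 < ∫ η, Real.exp (t1 / 2 ^ k * Real.log (G η)) ∂(law μ) :=
    integral_exp_pos (poly_exp_int hμ hP hG ht'.le)
  have h1 : ψ t1 ≤ c1 + t1 * (-m) := by
    rw [hψ, psi_eq hμ hP hG ht0.le]
    have h2 := Real.log_le_log hpos1 hmom
    rw [Real.log_exp] at h2
    linarith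
  have h2 := hiter k
  have hpk : (0 : ℝ) < (2 + a) ^ k := by positivity
  have h3 : ψ (t1 / 2 ^ k) ≤ c1 + t1 / 2 ^ k * (-m) / 2 := by
    have h4 : (2 + a) ^ k * ψ (t1 / 2 ^ k) ≤ c1 + t1 * (-m) := h2.trans h1
    have h5 : (2 : ℝ) ^ k ≤ (2 + a) ^ k / 2 := by
      rw [div_pow, div_lt_iff₀ hpk] at hk
      linarith
    have h6 : c1 ≤ (2 + a) ^ k * c1 := by
      have : (1 : ℝ) ≤ (2 + a) ^ k := one_le_pow₀ (by linarith)
      nlinarith
    have h7 : t1 * (-m) ≤ (2 + a) ^ k * (t1 / 2 ^ k * (-m) / 2) := by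
      have h8 : t1 * (-m) = 2 ^ k * (t1 / 2 ^ k * (-m)) := by
        field_simp
      have h9 : (2 + a) ^ k * (t1 / 2 ^ k * (-m) / 2) = ((2 + a) ^ k / 2) * (t1 / 2 ^ k * (-m)) := by ring
      rw [h8, h9]
      exact mul_le_mul_of_nonneg_right h5 (mul_nonneg ht'.le he)
    have h10 : (2 + a) ^ k * ψ (t1 / 2 ^ k) ≤ (2 + a) ^ k * (c1 + t1 / 2 ^ k * (-m) / 2) := by
      rw [mul_add]
      linarith
    exact le_of_mul_le_mul_left h10 hpk
  rw [hψ, psi_eq hμ hP hG ht'.le] at h3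
  have h4 : Real.log (∫ η, Real.exp (t1 / 2 ^ k * Real.log (G η)) ∂(law μ)) ≤
      c1 + -(t1 / 2 ^ k * (-m) / 2) := by linarith
  rw [Real.log_le_iff_le_exp hpos2, Real.exp_add] at h4
  exact h4

/-- The same with a constant `κ ∈ (0, 1]` of the law and for all smaller orders. -/
theorem LE_tail_le (hμ : EM μ) (hnd : Nondeg μ) : ∃ κ : ℝ, 0 < κ ∧ κ ≤ 1 ∧ ∀ (S : Set Pt) (G : Env → ℝ), Poly S G →
    (∀ η, 0 < G η) → ∀ t1 c1 : ℝ, 0 < t1 → t1 ≤ 1 → 0 ≤ c1 →
    ∫ η, Real.exp (t1 * Real.log (G η)) ∂(law μ) ≤ Real.exp c1 → 0 ≤ -∫ η, Real.log (G η) ∂(law μ) →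
    ∀ t : ℝ, 0 < t → t ≤ κ * t1 →
    ∫ η, Real.exp (t * Real.log (G η)) ∂(law μ) ≤
      Real.exp c1 * Real.exp (-(t * (-∫ η, Real.log (G η) ∂(law μ)) / 2)) := by
  obtain ⟨k, hk⟩ := LE_tail hμ hnd
  refine ⟨1 / 2 ^ k, by positivity, ?_, fun S G hP hG t1 c1 ht0 ht1 hc1 hmom he t ht htt => ?_⟩
  · rw [div_le_one (by positivity)]
    exact one_le_pow₀ (by norm_num)
  · have h1 := hk S G hP hG t1 c1 ht0 ht1 hc1 hmom he
    rw [← Real.exp_add] at h1
    have ht' : 0 < t1 / 2 ^ k := by positivity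
    have htt' : t ≤ t1 / 2 ^ k := by
      refine htt.trans (le_of_eq ?_)
      ring
    have h2 := moment_mono hμ hP hG ht htt' h1
    refine h2.trans ?_
    rw [← Real.exp_add]
    apply Real.exp_le_exp.2
    have h3 : t / (t1 / 2 ^ k) * (c1 + -(t1 / 2 ^ k * (-∫ η, Real.log (G η) ∂(law μ)) / 2)) =
        t / (t1 / 2 ^ k) * c1 + -(t * (-∫ η, Real.log (G η) ∂(law μ)) / 2) := by
      field_simp
    rw [h3]
    have h4 : t / (t1 / 2 ^ k) ≤ 1 := by
      rw [div_le_one ht']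
      exact htt'
    nlinarith

/-- The tail in probability: `P(log G ≥ - e / 4) ≤ exp (c1 - κ t1 e / 4)`. -/
theorem LE_prob (hμ : EM μ) (hnd : Nondeg μ) : ∃ κ : ℝ, 0 < κ ∧ κ ≤ 1 ∧ ∀ (S : Set Pt) (G : Env → ℝ), Poly S G →
    (∀ η, 0 < G η) → ∀ t1 c1 : ℝ, 0 < t1 → t1 ≤ 1 → 0 ≤ c1 →
    ∫ η, Real.exp (t1 * Real.log (G η)) ∂(law μ) ≤ Real.exp c1 → 0 ≤ -∫ η, Real.log (G η) ∂(law μ) →
    ∀ y : ℝ, (law μ).real {η | -y ≤ Real.log (G η)} ≤
      Real.exp (c1 + κ * t1 * y - κ * t1 * (-∫ η, Real.log (G η) ∂(law μ)) / 2) := by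
  obtain ⟨κ, hκ0, hκ1, hκ⟩ := LE_tail_le hμ hnd
  refine ⟨κ, hκ0, hκ1, fun S G hP hG t1 c1 ht0 ht1 hc1 hmom he y => ?_⟩
  have ht : 0 < κ * t1 := by positivity
  have h1 := hκ S G hP hG t1 c1 ht0 ht1 hc1 hmom he (κ * t1) ht le_rfl
  have hmeas : Measurable fun η => Real.log (G η) := Real.measurable_log.comp hP.measurable
  have h2 : (law μ).real {η | -y ≤ Real.log (G η)} * Real.exp (κ * t1 * (-y)) ≤
      ∫ η, Real.exp (κ * t1 * Real.log (G η)) ∂(law μ) := by
    have hS : MeasurableSet {η | -y ≤ Real.log (G η)} := measurableSet_le measurable_const hmeas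
    have h3 : ∫ η, {η | -y ≤ Real.log (G η)}.indicator (fun _ => Real.exp (κ * t1 * (-y))) η ∂(law μ) ≤
        ∫ η, Real.exp (κ * t1 * Real.log (G η)) ∂(law μ) := by
      apply integral_mono ((integrable_const _).indicator hS) (poly_exp_int hμ hP hG ht.le)
      intro η
      by_cases hη : η ∈ {η | -y ≤ Real.log (G η)}
      · rw [indicator_of_mem hη]
        exact Real.exp_le_exp.2 (mul_le_mul_of_nonneg_left hη ht.le)
      · rw [indicator_of_notMem hη]
        exact (Real.exp_pos _).le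
    rw [integral_indicator hS, setIntegral_const, smul_eq_mul] at h3
    exact h3
  have h4 := h2.trans h1
  rw [← le_div_iff₀ (Real.exp_pos _), ← Real.exp_add, ← Real.exp_sub] at h4
  refine h4.trans (le_of_eq ?_)
  congr 1
  ring

end

end Pool.Agent.W_7d29a1_LE
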