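import Pool.Agent.W_7d29a1_h47.Defs

/-!
MP_7d29a1_pr, row 621 of the table `proofs` (helper16): the doubling inequality for the log-Laplace transform.
Part A: one coordinate. (helper84)
-/

namespace Pool.Agent.W_7d29a1_LE

open MeasureTheory Set
open Pool.Agent.W_7d29a1_h47 (EM)

noncomputable section

/-- Functions of one variable of at most exponential growth. -/
def G1 (f : ℝ → ℝ) : Prop := Measurable f ∧ ∃ B : ℝ, 0 ≤ B ∧ ∀ r, |f r| ≤ B * Real.exp (B * |r|)

lemma G1.of_le {f : ℝ → ℝ} (hf : Measurable f) {B b : ℝ} (h : ∀ r, |f r| ≤ B * Real.exp (b * |r|)) : G1 f := by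
  refine ⟨hf, max (max B b) 0, le_max_right _ _, fun r => (h r).trans ?_⟩
  have h1 : b ≤ max (max B b) 0 := (le_max_right _ _).trans (le_max_left _ _)
  have h2 : B ≤ max (max B b) 0 := (le_max_left _ _).trans (le_max_left _ _)
  have h3 : Real.exp (b * |r|) ≤ Real.exp (max (max B b) 0 * |r|) :=
    Real.exp_le_exp.2 (mul_le_mul_of_nonneg_right h1 (abs_nonneg _))
  exact mul_le_mul h2 h3 (Real.exp_pos _).le (le_max_right _ _)

lemma G1.meas {f : ℝ → ℝ} (h : G1 f) : Measurable f := h.1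

lemma G1.integrable {μ : Measure ℝ} (hμ : EM μ) {f : ℝ → ℝ} (h : G1 f) : Integrable f μ := by
  obtain ⟨hf, B, hB, hb⟩ := h
  exact ((hμ B).const_mul B).mono' hf.aestronglyMeasurable (Filter.Eventually.of_forall fun r => by
    rw [Real.norm_eq_abs]
    exact hb r)

lemma G1.const (c : ℝ) : G1 fun _ => c :=
  G1.of_le measurable_const (B := |c|) (b := 0) fun r => by simp

lemma G1.id : G1 fun r => r := by
  refine G1.of_le measurable_id (B := 1) (b := 1) fun r => ?_
  have := Real.add_one_le_exp (1 * |r|)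
  show |r| ≤ _
  linarith

lemma G1.add {f g : ℝ → ℝ} (hf : G1 f) (hg : G1 g) : G1 fun r => f r + g r := by
  obtain ⟨hfm, B, hB, hb⟩ := hf
  obtain ⟨hgm, C, hC, hc⟩ := hg
  refine G1.of_le (hfm.add hgm) (B := B + C) (b := B + C) fun r => ?_
  have h1 : Real.exp (B * |r|) ≤ Real.exp ((B + C) * |r|) := Real.exp_le_exp.2 (by nlinarith [abs_nonneg r])
  have h2 : Real.exp (C * |r|) ≤ Real.exp ((B + C) * |r|) := Real.exp_le_exp.2 (by nlinarith [abs_nonneg r])
  calc |f r + g r| ≤ |f r| + |g r| := abs_add_le _ _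
    _ ≤ B * Real.exp (B * |r|) + C * Real.exp (C * |r|) := add_le_add (hb r) (hc r)
    _ ≤ B * Real.exp ((B + C) * |r|) + C * Real.exp ((B + C) * |r|) := by gcongr
    _ = (B + C) * Real.exp ((B + C) * |r|) := by ring

lemma G1.mul {f g : ℝ → ℝ} (hf : G1 f) (hg : G1 g) : G1 fun r => f r * g r := by
  obtain ⟨hfm, B, hB, hb⟩ := hf
  obtain ⟨hgm, C, hC, hc⟩ := hg
  refine G1.of_le (hfm.mul hgm) (B := B * C) (b := B + C) fun r => ?_
  rw [abs_mul]
  calc |f r| * |g r| ≤ (B * Real.exp (B * |r|)) * (C * Real.exp (C * |r|)) :=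
        mul_le_mul (hb r) (hc r) (abs_nonneg _) (by positivity)
    _ = B * C * Real.exp ((B + C) * |r|) := by
        have : Real.exp ((B + C) * |r|) = Real.exp (B * |r|) * Real.exp (C * |r|) := by
          rw [← Real.exp_add]
          congr 1
          ring
        rw [this]
        ring

lemma G1.neg {f : ℝ → ℝ} (hf : G1 f) : G1 fun r => -f r := by
  have := (G1.const (-1)).mul hf
  simpa using this

lemma G1.sub {f g : ℝ → ℝ} (hf : G1 f) (hg : G1 g) : G1 fun r => f r - g r := by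
  have := hf.add hg.neg
  simpa [sub_eq_add_neg] using this

lemma G1.abs {f : ℝ → ℝ} (hf : G1 f) : G1 fun r => |f r| := by
  obtain ⟨hfm, B, hB, hb⟩ := hf
  exact ⟨hfm.abs, B, hB, fun r => by rw [abs_abs]; exact hb r⟩

/-- A function below one of the class. -/
lemma G1.mono {f g : ℝ → ℝ} (hf : Measurable f) (hg : G1 g) (h : ∀ r, |f r| ≤ g r) : G1 f := by
  obtain ⟨_, B, hB, hb⟩ := hg
  exact ⟨hf, B, hB, fun r => (h r).trans ((le_abs_self _).trans (hb r))⟩

lemma G1.exp_abs (b x : ℝ) : G1 fun r => Real.exp (b * |r - x|) := by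
  refine G1.of_le (by fun_prop) (B := Real.exp (|b| * |x|)) (b := |b|) fun r => ?_
  rw [abs_of_pos (Real.exp_pos _), ← Real.exp_add]
  apply Real.exp_le_exp.2
  have h1 : |r - x| ≤ |r| + |x| := abs_sub _ _
  have h2 : b * |r - x| ≤ |b| * |r - x| := mul_le_mul_of_nonneg_right (le_abs_self _) (abs_nonneg _)
  have h3 := mul_le_mul_of_nonneg_left h1 (abs_nonneg b)
  linarith

lemma G1.abs_sub (x : ℝ) : G1 fun r => |r - x| := (G1.id.sub (G1.const x)).abs

/-! ### The entropy function -/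

/-- `u log u - u + 1`. -/
def phi (u : ℝ) : ℝ := u * Real.log u - u + 1

lemma phi_ge {u : ℝ} (hu : 0 < u) : (Real.sqrt u - 1) ^ 2 ≤ phi u := by
  unfold phi
  have hs : 0 < Real.sqrt u := Real.sqrt_pos.2 hu
  have h1 : Real.sqrt u * Real.sqrt u = u := Real.mul_self_sqrt hu.le
  have h2 : Real.log u = 2 * Real.log (Real.sqrt u) := by
    rw [← h1, Real.sqrt_mul_self hs.le, Real.log_mul hs.ne' hs.ne']
    ring
  have h3 : 1 - (Real.sqrt u)⁻¹ ≤ Real.log (Real.sqrt u) := Real.one_sub_inv_le_log_of_pos hs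
  have h4 : u * (2 * (1 - (Real.sqrt u)⁻¹)) ≤ u * Real.log u := by
    rw [h2]
    exact mul_le_mul_of_nonneg_left (by linarith) hu.le
  have h5 : u * (Real.sqrt u)⁻¹ = Real.sqrt u := by
    rw [← div_eq_mul_inv, Real.div_sqrt]
  nlinarith

lemma phi_nonneg {u : ℝ} (hu : 0 < u) : 0 ≤ phi u := (sq_nonneg _).trans (phi_ge hu)

lemma phi_ge_of_ge {u δ : ℝ} (hδ : 0 ≤ δ) (hδ1 : δ ≤ 1) (h : 1 + δ ≤ u) : δ ^ 2 / 9 ≤ phi u := by
  have hu : 0 < u := by linarith
  refine le_trans ?_ (phi_ge hu)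
  have h1 : 1 + δ / 3 ≤ Real.sqrt u := by
    apply Real.le_sqrt_of_sq_le
    nlinarith
  have h2 : 0 ≤ δ / 3 := by positivity
  nlinarith

lemma phi_ge_of_le {u δ : ℝ} (hu : 0 < u) (hδ : 0 ≤ δ) (h : u ≤ 1 - δ) : δ ^ 2 / 9 ≤ phi u := by
  refine le_trans ?_ (phi_ge hu)
  have h1 : Real.sqrt u ≤ 1 - δ / 2 := by
    apply Real.sqrt_le_iff.2
    constructor
    · linarith
    · nlinarith
  nlinarith

end

end Pool.Agent.W_7d29a1_LE
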