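import Pool.Agent.W_7d29a1_LE.LeA

/-!
MP_7d29a1_pr, row 621: the doubling inequality for the log-Laplace transform.
Part B: the one coordinate lemma. (helper84)
-/

namespace Pool.Agent.W_7d29a1_LE

open MeasureTheory Set
open Pool.Agent.W_7d29a1_h47 (EM)

noncomputable section

/-- The part of the density above one. -/
def pp (h : ℝ → ℝ) (r : ℝ) : ℝ := max (h r - 1) 0

/-- The part of the density missing below one. -/
def nn (h : ℝ → ℝ) (r : ℝ) : ℝ := max (1 - h r) 0

lemma pp_nonneg (h : ℝ → ℝ) (r : ℝ) : 0 ≤ pp h r := le_max_right _ _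
lemma nn_nonneg (h : ℝ → ℝ) (r : ℝ) : 0 ≤ nn h r := le_max_right _ _

lemma pp_sub_nn (h : ℝ → ℝ) (r : ℝ) : pp h r - nn h r = h r - 1 := by
  unfold pp nn
  rcases le_total (h r) 1 with h1 | h1
  · rw [max_eq_right (by linarith), max_eq_left (by linarith)]
    ring
  · rw [max_eq_left (by linarith), max_eq_right (by linarith)]
    ring

lemma nn_le_one {h : ℝ → ℝ} (h0 : ∀ r, 0 ≤ h r) (r : ℝ) : nn h r ≤ 1 := by
  unfold nn
  exact max_le (by linarith [h0 r]) zero_le_one

lemma G1_pp {h : ℝ → ℝ} (hh : G1 h) : G1 (pp h) := by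
  refine G1.mono ((hh.meas.sub_const 1).max measurable_const) (hh.abs.add (G1.const 1)) fun r => ?_
  unfold pp
  rw [abs_of_nonneg (le_max_right _ _)]
  exact max_le (by linarith [le_abs_self (h r)]) (by positivity)

lemma G1_nn {h : ℝ → ℝ} (hh : G1 h) : G1 (nn h) := by
  refine G1.mono ((measurable_const.sub hh.meas).max measurable_const) (hh.abs.add (G1.const 1)) fun r => ?_
  unfold nn
  rw [abs_of_nonneg (le_max_right _ _)]
  exact max_le (by linarith [neg_abs_le (h r)]) (by positivity)

variable {μ : Measure ℝ} [IsProbabilityMeasure μ]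

/-- The defect of the coupling in one coordinate. -/
def KK (μ : Measure ℝ) (h G : ℝ → ℝ) (x0 : ℝ) : ℝ :=
  ∫ r, pp h r * G r * (r - x0) ∂μ -
    (∫ r, pp h r ∂μ)⁻¹ * (∫ s, nn h s * (s - x0) ∂μ) * (∫ r, pp h r * G r ∂μ)

lemma int_pp_eq (hμ : EM μ) {h : ℝ → ℝ} (hh : G1 h) (h1 : ∫ r, h r ∂μ = 1) :
    ∫ r, nn h r ∂μ = ∫ r, pp h r ∂μ := by
  have e : ∫ r, (pp h r - nn h r) ∂μ = 0 := by
    simp_rw [pp_sub_nn]
    rw [integral_sub (hh.integrable hμ) (integrable_const _), h1]
    simp
  rw [integral_sub ((G1_pp hh).integrable hμ) ((G1_nn hh).integrable hμ)] at e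
  linarith

/-- Coupling in one coordinate. -/
theorem paste (hμ : EM μ) {h Φ R G : ℝ → ℝ} (hh : G1 h) (hΦ : G1 Φ) (hR : G1 R) (hG : G1 G)
    (h0 : ∀ r, 0 ≤ h r) (h1 : ∫ r, h r ∂μ = 1) (hle : ∀ r s, R r + G r * (s - r) ≤ Φ s) (x0 : ℝ) :
    ∫ r, h r * R r ∂μ - (if 0 < ∫ r, pp h r ∂μ then KK μ h G x0 else 0) ≤ ∫ s, Φ s ∂μ := by
  have gp := G1_pp hh
  have gn := G1_nn hh
  have hm0 : 0 ≤ ∫ r, pp h r ∂μ := integral_nonneg fun r => pp_nonneg h r
  have hmn := int_pp_eq hμ hh h1
  -- the common part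
  have hc0 : ∀ r, 0 ≤ 1 - nn h r := fun r => by linarith [nn_le_one h0 r]
  have gc : G1 fun r => 1 - nn h r := (G1.const 1).sub gn
  have e1 : ∫ s, (1 - nn h s) * R s ∂μ ≤ ∫ s, (1 - nn h s) * Φ s ∂μ := by
    apply integral_mono ((gc.mul hR).integrable hμ) ((gc.mul hΦ).integrable hμ)
    intro s
    have := hle s s
    simp only [sub_self, mul_zero, add_zero] at this
    exact mul_le_mul_of_nonneg_left this (hc0 s)
  have e2 : ∫ s, Φ s ∂μ = ∫ s, (1 - nn h s) * Φ s ∂μ + ∫ s, nn h s * Φ s ∂μ := by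
    rw [← integral_add ((gc.mul hΦ).integrable hμ) ((gn.mul hΦ).integrable hμ)]
    apply integral_congr_ae
    filter_upwards with s
    ring
  have e3 : ∫ s, h s * R s ∂μ = ∫ s, (1 - nn h s) * R s ∂μ + ∫ s, pp h s * R s ∂μ := by
    rw [← integral_add ((gc.mul hR).integrable hμ) ((gp.mul hR).integrable hμ)]
    apply integral_congr_ae
    filter_upwards with s
    have := pp_sub_nn h s
    have h2 : h s = 1 - nn h s + pp h s := by linarith
    rw [h2]
    ring
  split_ifs with hm
  · set m := ∫ r, pp h r ∂μ with hmdef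
    set a := ∫ r, pp h r * R r ∂μ with ha
    set b := ∫ r, pp h r * G r ∂μ with hb
    set c := ∫ r, pp h r * G r * (r - x0) ∂μ with hc
    have gG : G1 fun r => pp h r * G r := gp.mul hG
    have gGr : G1 fun r => pp h r * G r * (r - x0) := gG.mul (G1.id.sub (G1.const x0))
    have f1 : ∀ s, a + (s - x0) * b - c ≤ m * Φ s := by
      intro s
      have h2 : ∫ r, (pp h r * R r + (s - x0) * (pp h r * G r) - pp h r * G r * (r - x0)) ∂μ ≤
          ∫ r, pp h r * Φ s ∂μ := by
        apply integral_mono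
        · exact ((((gp.mul hR).add ((G1.const (s - x0)).mul gG))).sub gGr).integrable hμ
        · exact (gp.mul (G1.const (Φ s))).integrable hμ
        · intro r
          have h3 := mul_le_mul_of_nonneg_left (hle r s) (pp_nonneg h r)
          show pp h r * R r + (s - x0) * (pp h r * G r) - pp h r * G r * (r - x0) ≤ pp h r * Φ s
          have h4 : pp h r * R r + (s - x0) * (pp h r * G r) - pp h r * G r * (r - x0) =
              pp h r * (R r + G r * (s - r)) := by ring
          rw [h4]
          exact h3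
      have h5 : Integrable (fun r => pp h r * R r + (s - x0) * (pp h r * G r)) μ :=
        ((gp.mul hR).add ((G1.const (s - x0)).mul gG)).integrable hμ
      rw [integral_sub h5 (gGr.integrable hμ), integral_add ((gp.mul hR).integrable hμ)
        (((G1.const (s - x0)).mul gG).integrable hμ), integral_const_mul, integral_mul_const] at h2
      linarith
    have f2 : ∫ s, nn h s * (a + (s - x0) * b - c) ∂μ ≤ ∫ s, nn h s * (m * Φ s) ∂μ := by
      apply integral_mono
      · exact (gn.mul (((G1.const a).add ((G1.id.sub (G1.const x0)).mul (G1.const b))).sub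
          (G1.const c))).integrable hμ
      · exact (gn.mul ((G1.const m).mul hΦ)).integrable hμ
      · intro s
        exact mul_le_mul_of_nonneg_left (f1 s) (nn_nonneg h s)
    have f3 : ∫ s, nn h s * (a + (s - x0) * b - c) ∂μ =
        m * (a - c) + (∫ s, nn h s * (s - x0) ∂μ) * b := by
      have h2 : ∀ s, nn h s * (a + (s - x0) * b - c) = nn h s * (a - c) + nn h s * (s - x0) * b :=
        fun s => by ring
      simp_rw [h2]
      have gns : G1 fun s => nn h s * (s - x0) := gn.mul (G1.id.sub (G1.const x0))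
      rw [integral_add ((gn.mul (G1.const (a - c))).integrable hμ)
        ((gns.mul (G1.const b)).integrable hμ), integral_mul_const, integral_mul_const, hmn]
    have f4 : ∫ s, nn h s * (m * Φ s) ∂μ = m * ∫ s, nn h s * Φ s ∂μ := by
      rw [← integral_const_mul]
      apply integral_congr_ae
      filter_upwards with s
      ring
    rw [f3, f4] at f2
    have f5 : (a - c) + m⁻¹ * (∫ s, nn h s * (s - x0) ∂μ) * b ≤ ∫ s, nn h s * Φ s ∂μ := by
      have h2 := mul_le_mul_of_nonneg_left f2 (inv_nonneg.2 hm0)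
      have h3 : m⁻¹ * (m * ∫ s, nn h s * Φ s ∂μ) = ∫ s, nn h s * Φ s ∂μ := by
        field_simp
      have h4 : m⁻¹ * (m * (a - c) + (∫ s, nn h s * (s - x0) ∂μ) * b) =
          (a - c) + m⁻¹ * (∫ s, nn h s * (s - x0) ∂μ) * b := by
        field_simp
      rw [h3, h4] at h2
      exact h2
    unfold KK
    rw [← hmdef, ← hb, ← hc]
    linarith
  · have hm' : ∫ r, pp h r ∂μ = 0 := le_antisymm (not_lt.1 hm) hm0
    rw [hm'] at hmn
    have z1 : ∫ s, nn h s * Φ s ∂μ = 0 := by
      have h2 := (integral_eq_zero_iff_of_nonneg (fun r => nn_nonneg h r) (gn.integrable hμ)).1 hmn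
      rw [integral_congr_ae (g := fun _ => (0 : ℝ))]
      · simp
      · filter_upwards [h2] with s hs
        rw [hs]
        simp
    have z2 : ∫ s, pp h s * R s ∂μ = 0 := by
      have h2 := (integral_eq_zero_iff_of_nonneg (fun r => pp_nonneg h r) (gp.integrable hμ)).1 hm'
      rw [integral_congr_ae (g := fun _ => (0 : ℝ))]
      · simp
      · filter_upwards [h2] with s hs
        rw [hs]
        simp
    rw [z1] at e2
    rw [z2] at e3
    linarith

end

end Pool.Agent.W_7d29a1_LE
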