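import Pool.Agent.W_7d29a1_LE.LeB

/-!
MP_7d29a1_pr, row 621: the doubling inequality for the log-Laplace transform.
Part C: the defect of one coordinate is at most a constant times the entropy. (helper84)
-/

namespace Pool.Agent.W_7d29a1_LE

open MeasureTheory Set
open Pool.Agent.W_7d29a1_h47 (EM)

noncomputable section

lemma abs_exp_sub_one_le (u : ℝ) : |Real.exp u - 1| ≤ |u| * Real.exp |u| := by
  rcases le_total 0 u with h | h
  · rw [abs_of_nonneg h, abs_of_nonneg (by linarith [Real.one_le_exp h])]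
    have h5 := Real.add_one_le_exp (-u)
    have h6 : Real.exp u * Real.exp (-u) = 1 := by
      rw [← Real.exp_add]
      simp
    nlinarith [mul_le_mul_of_nonneg_left h5 (Real.exp_pos u).le]
  · rw [abs_of_nonpos h, abs_of_nonpos (by linarith [Real.exp_le_one_iff.2 h])]
    have h5 := Real.add_one_le_exp u
    have h6 : 1 ≤ Real.exp (-u) := Real.one_le_exp (by linarith)
    nlinarith

variable {μ : Measure ℝ} [IsProbabilityMeasure μ]

/-- One coordinate: the defect is at most `C g ε`, the entropy is at least `c ε ^ 2`. -/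
theorem one_site (hμ : EM μ) {xm xp q : ℝ} (hx : xm < xp) (hq : 0 < q) (hqm : q ≤ μ.real (Iic xm))
    (hqp : q ≤ μ.real (Ici xp)) : ∃ C c : ℝ, 0 ≤ C ∧ 0 < c ∧
    ∀ (ε g : ℝ) (y G : ℝ → ℝ), Measurable y → Measurable G → 0 ≤ ε → ε ≤ 1 → 0 ≤ g →
      (∀ r, |y r| ≤ ε * (|r - xm| * Real.exp (2 * |r - xm|))) → (∀ r, |y r| ≤ |r - xm|) → Monotone y →
      ε * (xp - xm) ≤ y xp → (∀ r, 0 ≤ G r) → (∀ r, G r ≤ Real.exp (2 * |r - xm|) * g) →
      (0 < ∫ r, pp (fun r => Real.exp (y r) / ∫ u, Real.exp (y u) ∂μ) r ∂μ →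
        KK μ (fun r => Real.exp (y r) / ∫ u, Real.exp (y u) ∂μ) G xm ≤ C * (g * ε)) ∧
      c * ε ^ 2 ≤ ∫ r, Real.exp (y r) / (∫ u, Real.exp (y u) ∂μ) *
        (y r - Real.log (∫ u, Real.exp (y u) ∂μ)) ∂μ := by
  set d := xp - xm with hd
  have hd0 : 0 < d := by linarith
  -- constants
  set w : ℝ → ℝ := fun r => |r - xm| * Real.exp (2 * |r - xm|) with hw
  have gd : G1 fun r => |r - xm| := G1.abs_sub xm
  have ge1 : G1 fun r => Real.exp (1 * |r - xm|) := G1.exp_abs 1 xm
  have ge2 : G1 fun r => Real.exp (2 * |r - xm|) := G1.exp_abs 2 xm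
  have gw : G1 w := gd.mul ge2
  set i0 := ∫ r, Real.exp (-1 * |r - xm|) ∂μ with hi0
  have gem : G1 fun r => Real.exp (-1 * |r - xm|) := G1.exp_abs (-1) xm
  have hi0p : 0 < i0 := by
    apply integral_exp_pos
    exact gem.integrable hμ
  set W1 := ∫ r, w r * Real.exp (1 * |r - xm|) ∂μ with hW1
  have gwe : G1 fun r => w r * Real.exp (1 * |r - xm|) := gw.mul ge1
  have hW10 : 0 ≤ W1 := integral_nonneg fun r => by positivity
  set Ψ : ℝ → ℝ := fun r => (w r * Real.exp (1 * |r - xm|) + W1) * i0⁻¹ with hΨ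
  have gΨ : G1 Ψ := (gwe.add (G1.const W1)).mul (G1.const i0⁻¹)
  have hΨ0 : ∀ r, 0 ≤ Ψ r := fun r => by positivity
  set A1 := ∫ r, Real.exp (2 * |r - xm|) * |r - xm| * Ψ r ∂μ with hA1
  set A2 := ∫ r, Real.exp (2 * |r - xm|) * Ψ r ∂μ with hA2
  set A3 := ∫ r, |r - xm| * Ψ r ∂μ with hA3
  have hA10 : 0 ≤ A1 := integral_nonneg fun r => by have := hΨ0 r; positivity
  have hA20 : 0 ≤ A2 := integral_nonneg fun r => by have := hΨ0 r; positivity
  have hA30 : 0 ≤ A3 := integral_nonneg fun r => by have := hΨ0 r; positivity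
  set c3 := d / (2 + d) with hc3
  have hc30 : 0 < c3 := by positivity
  have hc31 : c3 ≤ 1 := by
    rw [hc3, div_le_one (by positivity)]
    linarith
  refine ⟨A1 + A2 * A3 / (q * c3), q * c3 ^ 2 / 9, by positivity, by positivity, ?_⟩
  intro ε g y G hym hGm hε0 hε1 hg0 hy1 hy2 hymono hyp hG0 hGle
  set I := ∫ u, Real.exp (y u) ∂μ with hI
  set h : ℝ → ℝ := fun r => Real.exp (y r) / I with hh
  have gexpy : G1 fun r => Real.exp (y r) := by
    refine G1.mono (Real.measurable_exp.comp hym) ge1 fun r => ?_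
    rw [abs_of_pos (Real.exp_pos _)]
    apply Real.exp_le_exp.2
    have := le_abs_self (y r)
    have := hy2 r
    linarith
  have hIi : i0 ≤ I := by
    apply integral_mono (gem.integrable hμ) (gexpy.integrable hμ)
    intro r
    apply Real.exp_le_exp.2
    have := neg_abs_le (y r)
    have := hy2 r
    linarith
  have hIp : 0 < I := lt_of_lt_of_le hi0p hIi
  have gh : G1 h := by
    have := gexpy.mul (G1.const I⁻¹)
    simpa [hh, div_eq_mul_inv] using this
  have hhp : ∀ r, 0 < h r := fun r => div_pos (Real.exp_pos _) hIp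
  have hh1 : ∫ r, h r ∂μ = 1 := by
    rw [hh, integral_div]
    exact div_self hIp.ne'
  have hym0 : y xm = 0 := by
    have := hy2 xm
    simp at this
    exact this
  -- `|h - 1| ≤ ε Ψ`
  have hey : ∀ r, |Real.exp (y r) - 1| ≤ ε * (w r * Real.exp (1 * |r - xm|)) := by
    intro r
    refine (abs_exp_sub_one_le _).trans ?_
    have h1 : Real.exp |y r| ≤ Real.exp (1 * |r - xm|) := Real.exp_le_exp.2 (by linarith [hy2 r])
    calc |y r| * Real.exp |y r| ≤ (ε * w r) * Real.exp (1 * |r - xm|) :=
          mul_le_mul (hy1 r) h1 (Real.exp_pos _).le (by positivity)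
      _ = ε * (w r * Real.exp (1 * |r - xm|)) := by ring
  have hI1 : |I - 1| ≤ ε * W1 := by
    have e1 : I - 1 = ∫ r, (Real.exp (y r) - 1) ∂μ := by
      rw [integral_sub (gexpy.integrable hμ) (integrable_const _)]
      simp [hI]
    rw [e1]
    refine (abs_integral_le_integral_abs).trans ?_
    have e2 : ε * W1 = ∫ r, ε * (w r * Real.exp (1 * |r - xm|)) ∂μ := by
      rw [integral_const_mul]
    rw [e2]
    apply integral_mono
    · exact ((gexpy.sub (G1.const 1)).abs).integrable hμ
    · exact ((G1.const ε).mul gwe).integrable hμ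
    · exact hey
  have hhΨ : ∀ r, |h r - 1| ≤ ε * Ψ r := by
    intro r
    have e1 : h r - 1 = ((Real.exp (y r) - 1) - (I - 1)) * I⁻¹ := by
      rw [hh]
      field_simp
      ring
    rw [e1, abs_mul, abs_of_pos (inv_pos.2 hIp)]
    have e2 : |(Real.exp (y r) - 1) - (I - 1)| ≤ ε * (w r * Real.exp (1 * |r - xm|) + W1) := by
      refine (abs_sub _ _).trans ?_
      have := hey r
      linarith
    have e3 : I⁻¹ ≤ i0⁻¹ := inv_anti₀ hi0p hIi
    calc |(Real.exp (y r) - 1) - (I - 1)| * I⁻¹ ≤ (ε * (w r * Real.exp (1 * |r - xm|) + W1)) * i0⁻¹ :=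
          mul_le_mul e2 e3 (inv_nonneg.2 hIp.le) (by positivity)
      _ = ε * Ψ r := by
          rw [hΨ]
          ring
  have hpΨ : ∀ r, pp h r ≤ ε * Ψ r := fun r =>
    max_le ((le_abs_self _).trans (hhΨ r)) (mul_nonneg hε0 (hΨ0 r))
  have hnΨ : ∀ r, nn h r ≤ ε * Ψ r := fun r =>
    max_le (by
      have := hhΨ r
      rw [abs_sub_comm] at this
      exact (le_abs_self _).trans this) (mul_nonneg hε0 (hΨ0 r))
  -- the ratio
  have hratio : h xm * (1 + ε * d) ≤ h xp := by
    have e1 : h xm = 1 / I := by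
      rw [hh]
      simp only
      rw [hym0, Real.exp_zero]
    have e2 : 1 + ε * d ≤ Real.exp (y xp) := by
      have := Real.add_one_le_exp (ε * d)
      have h2 := Real.exp_le_exp.2 hyp
      linarith
    rw [e1, hh]
    simp only
    rw [div_mul_eq_mul_div, one_mul]
    gcongr
  have hmonoh : Monotone h := by
    intro r s hrs
    show Real.exp (y r) / I ≤ Real.exp (y s) / I
    have := Real.exp_le_exp.2 (hymono hrs)
    gcongr
  set δ := c3 * ε with hδ
  have hδ0 : 0 ≤ δ := by positivity
  have hδ1 : δ ≤ 1 := by nlinarith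
  have halt : 1 + δ ≤ h xp ∨ h xm ≤ 1 - δ := by
    by_contra hcon
    push Not at hcon
    obtain ⟨h1, h2⟩ := hcon
    have h3 : (1 - δ) * (1 + ε * d) ≤ h xp := by
      refine le_trans ?_ hratio
      apply mul_le_mul_of_nonneg_right h2.le
      positivity
    have h4 : c3 * (2 + d) = d := by
      rw [hc3]
      field_simp
    have h5 : 1 + δ ≤ (1 - δ) * (1 + ε * d) := by
      have e1 : (1 - δ) * (1 + ε * d) - (1 + δ) = ε * (d - c3 * (2 + ε * d)) := by
        rw [hδ]
        ring
      have e2 : 0 ≤ d - c3 * (2 + ε * d) := by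
        have : c3 * (2 + ε * d) ≤ c3 * (2 + d) := by
          apply mul_le_mul_of_nonneg_left _ hc30.le
          nlinarith
        linarith
      nlinarith [mul_nonneg hε0 e2]
    linarith
  constructor
  · intro hm
    have gp := G1_pp gh
    have gn := G1_nn gh
    have gG : G1 G := by
      refine G1.mono hGm (ge2.mul (G1.const g)) fun r => ?_
      rw [abs_of_nonneg (hG0 r)]
      exact hGle r
    set m := ∫ r, pp h r ∂μ with hmdef
    have hmlow : q * δ ≤ m := by
      rcases halt with h1 | h1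
      · have h2 : ∫ r, (Ici xp).indicator (fun _ => δ) r ∂μ ≤ m := by
          apply integral_mono ((integrable_const _).indicator measurableSet_Ici) (gp.integrable hμ)
          intro r
          by_cases hr : r ∈ Ici xp
          · rw [indicator_of_mem hr]
            have h3 : h xp ≤ h r := hmonoh hr
            exact le_trans (by linarith) (le_max_left _ _)
          · rw [indicator_of_notMem hr]
            exact pp_nonneg h r
        rw [integral_indicator measurableSet_Ici, setIntegral_const, smul_eq_mul] at h2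
        exact (mul_le_mul_of_nonneg_right hqp hδ0).trans h2
      · rw [hmdef, ← int_pp_eq hμ gh hh1]
        have h2 : ∫ r, (Iic xm).indicator (fun _ => δ) r ∂μ ≤ ∫ r, nn h r ∂μ := by
          apply integral_mono ((integrable_const _).indicator measurableSet_Iic) (gn.integrable hμ)
          intro r
          by_cases hr : r ∈ Iic xm
          · rw [indicator_of_mem hr]
            have h3 : h r ≤ h xm := hmonoh hr
            exact le_trans (by linarith) (le_max_left _ _)
          · rw [indicator_of_notMem hr]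
            exact nn_nonneg h r
        rw [integral_indicator measurableSet_Iic, setIntegral_const, smul_eq_mul] at h2
        exact (mul_le_mul_of_nonneg_right hqm hδ0).trans h2
    -- the three integrals
    have k1 : ∫ r, pp h r * G r * (r - xm) ∂μ ≤ g * ε * A1 := by
      have e1 : g * ε * A1 = ∫ r, g * ε * (Real.exp (2 * |r - xm|) * |r - xm| * Ψ r) ∂μ := by
        rw [integral_const_mul]
      rw [e1]
      apply integral_mono (((gp.mul gG).mul (G1.id.sub (G1.const xm))).integrable hμ)
        (((G1.const (g * ε)).mul ((ge2.mul gd).mul gΨ)).integrable hμ)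
      intro r
      show pp h r * G r * (r - xm) ≤ g * ε * (Real.exp (2 * |r - xm|) * |r - xm| * Ψ r)
      have e2 : pp h r * G r * (r - xm) ≤ pp h r * G r * |r - xm| :=
        mul_le_mul_of_nonneg_left (le_abs_self _) (mul_nonneg (pp_nonneg h r) (hG0 r))
      have e3 : pp h r * G r ≤ (ε * Ψ r) * (Real.exp (2 * |r - xm|) * g) :=
        mul_le_mul (hpΨ r) (hGle r) (hG0 r) (mul_nonneg hε0 (hΨ0 r))
      calc pp h r * G r * (r - xm) ≤ pp h r * G r * |r - xm| := e2
        _ ≤ ((ε * Ψ r) * (Real.exp (2 * |r - xm|) * g)) * |r - xm| :=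
            mul_le_mul_of_nonneg_right e3 (abs_nonneg _)
        _ = g * ε * (Real.exp (2 * |r - xm|) * |r - xm| * Ψ r) := by ring
    have k2 : ∫ r, pp h r * G r ∂μ ≤ g * ε * A2 := by
      have e1 : g * ε * A2 = ∫ r, g * ε * (Real.exp (2 * |r - xm|) * Ψ r) ∂μ := by
        rw [integral_const_mul]
      rw [e1]
      apply integral_mono ((gp.mul gG).integrable hμ)
        (((G1.const (g * ε)).mul (ge2.mul gΨ)).integrable hμ)
      intro r
      show pp h r * G r ≤ g * ε * (Real.exp (2 * |r - xm|) * Ψ r)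
      have e3 : pp h r * G r ≤ (ε * Ψ r) * (Real.exp (2 * |r - xm|) * g) :=
        mul_le_mul (hpΨ r) (hGle r) (hG0 r) (mul_nonneg hε0 (hΨ0 r))
      linarith
    have k20 : 0 ≤ ∫ r, pp h r * G r ∂μ := integral_nonneg fun r => mul_nonneg (pp_nonneg h r) (hG0 r)
    have k3 : -(∫ s, nn h s * (s - xm) ∂μ) ≤ ε * A3 := by
      have e1 : ε * A3 = ∫ r, ε * (|r - xm| * Ψ r) ∂μ := by
        rw [integral_const_mul]
      rw [e1, ← integral_neg]
      apply integral_mono
      · exact ((gn.mul (G1.id.sub (G1.const xm))).neg).integrable hμ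
      · exact ((G1.const ε).mul (gd.mul gΨ)).integrable hμ
      · intro r
        show -(nn h r * (r - xm)) ≤ ε * (|r - xm| * Ψ r)
        have e2 : -(nn h r * (r - xm)) ≤ nn h r * |r - xm| := by
          have := neg_abs_le (r - xm)
          have := nn_nonneg h r
          nlinarith
        have e3 : nn h r * |r - xm| ≤ (ε * Ψ r) * |r - xm| :=
          mul_le_mul_of_nonneg_right (hnΨ r) (abs_nonneg _)
        linarith
    have k4 : KK μ h G xm ≤ g * ε * A1 + m⁻¹ * (ε * A3) * (g * ε * A2) := by
      unfold KK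
      rw [← hmdef]
      have hmi : 0 ≤ m⁻¹ := inv_nonneg.2 hm.le
      have e1 : -(m⁻¹ * (∫ s, nn h s * (s - xm) ∂μ) * (∫ r, pp h r * G r ∂μ)) =
          m⁻¹ * (-(∫ s, nn h s * (s - xm) ∂μ)) * (∫ r, pp h r * G r ∂μ) := by ring
      have e2 : m⁻¹ * (-(∫ s, nn h s * (s - xm) ∂μ)) ≤ m⁻¹ * (ε * A3) :=
        mul_le_mul_of_nonneg_left k3 hmi
      have e3 : m⁻¹ * (-(∫ s, nn h s * (s - xm) ∂μ)) * (∫ r, pp h r * G r ∂μ) ≤
          m⁻¹ * (ε * A3) * (g * ε * A2) := by
        calc m⁻¹ * (-(∫ s, nn h s * (s - xm) ∂μ)) * (∫ r, pp h r * G r ∂μ) ≤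
              m⁻¹ * (ε * A3) * (∫ r, pp h r * G r ∂μ) := mul_le_mul_of_nonneg_right e2 k20
          _ ≤ m⁻¹ * (ε * A3) * (g * ε * A2) := by
              apply mul_le_mul_of_nonneg_left k2
              positivity
      linarith
    refine k4.trans ?_
    rcases eq_or_lt_of_le hε0 with hz | hz
    · rw [← hz]
      simp
    · have hδp : 0 < δ := by positivity
      have e1 : m⁻¹ ≤ (q * δ)⁻¹ := inv_anti₀ (by positivity) hmlow
      have e2 : m⁻¹ * (ε * A3) * (g * ε * A2) ≤ (q * δ)⁻¹ * (ε * A3) * (g * ε * A2) := by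
        gcongr
      have e3 : (q * δ)⁻¹ * (ε * A3) * (g * ε * A2) = A2 * A3 / (q * c3) * (g * ε) := by
        rw [hδ]
        field_simp
      rw [e3] at e2
      linarith
  · -- the entropy
    have hlog : ∀ r, Real.log (h r) = y r - Real.log I := by
      intro r
      rw [hh]
      simp only
      rw [Real.log_div (Real.exp_pos _).ne' hIp.ne', Real.log_exp]
    have gy : G1 y := G1.mono hym gd hy2
    have gphi : G1 fun r => phi (h r) := by
      have h1 : (fun r => phi (h r)) = fun r => h r * (y r - Real.log I) - h r + 1 := by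
        funext r
        unfold phi
        rw [hlog]
      rw [h1]
      exact ((gh.mul (gy.sub (G1.const (Real.log I)))).sub gh).add (G1.const 1)
    have e1 : ∫ r, h r * (y r - Real.log I) ∂μ = ∫ r, phi (h r) ∂μ := by
      have h1 : ∀ r, phi (h r) = h r * (y r - Real.log I) - (h r - 1) := by
        intro r
        unfold phi
        rw [hlog]
        ring
      simp_rw [h1]
      rw [integral_sub ((gh.mul (gy.sub (G1.const (Real.log I)))).integrable hμ)
        ((gh.sub (G1.const 1)).integrable hμ), integral_sub (gh.integrable hμ) (integrable_const _), hh1]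
      simp
    have e2 : q * (δ ^ 2 / 9) ≤ ∫ r, phi (h r) ∂μ := by
      rcases halt with h1 | h1
      · have h2 : ∫ r, (Ici xp).indicator (fun _ => δ ^ 2 / 9) r ∂μ ≤ ∫ r, phi (h r) ∂μ := by
          apply integral_mono ((integrable_const _).indicator measurableSet_Ici) (gphi.integrable hμ)
          intro r
          by_cases hr : r ∈ Ici xp
          · rw [indicator_of_mem hr]
            have h3 : h xp ≤ h r := hmonoh hr
            exact phi_ge_of_ge hδ0 hδ1 (by linarith)
          · rw [indicator_of_notMem hr]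
            exact phi_nonneg (hhp r)
        rw [integral_indicator measurableSet_Ici, setIntegral_const, smul_eq_mul] at h2
        exact (mul_le_mul_of_nonneg_right hqp (by positivity)).trans h2
      · have h2 : ∫ r, (Iic xm).indicator (fun _ => δ ^ 2 / 9) r ∂μ ≤ ∫ r, phi (h r) ∂μ := by
          apply integral_mono ((integrable_const _).indicator measurableSet_Iic) (gphi.integrable hμ)
          intro r
          by_cases hr : r ∈ Iic xm
          · rw [indicator_of_mem hr]
            have h3 : h r ≤ h xm := hmonoh hr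
            exact phi_ge_of_le (hhp r) hδ0 (by linarith)
          · rw [indicator_of_notMem hr]
            exact phi_nonneg (hhp r)
        rw [integral_indicator measurableSet_Iic, setIntegral_const, smul_eq_mul] at h2
        exact (mul_le_mul_of_nonneg_right hqm (by positivity)).trans h2
    show q * c3 ^ 2 / 9 * ε ^ 2 ≤ ∫ r, h r * (y r - Real.log I) ∂μ
    rw [e1]
    refine le_trans (le_of_eq ?_) e2
    rw [hδ]
    ring

end

end Pool.Agent.W_7d29a1_LE
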