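import Pool.Agent.W_7d29a1_LE.LeC
import Pool.Agent.W_7d29a1_t2.RedC

/-!
MP_7d29a1_pr, row 621: the doubling inequality for the log-Laplace transform.
Part D: functions of `N` variables of at most exponential growth, Fubini. (helper84)
-/

namespace Pool.Agent.W_7d29a1_LE

open MeasureTheory Set
open Pool.Agent.W_7d29a1_h47 (EM)
open Pool.Agent.W_7d29a1_t2 (mp_cons measurable_cons measurable_inner)

noncomputable section

/-- Functions of `N` variables of at most exponential growth. -/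
def Gr {N : ℕ} (f : (Fin N → ℝ) → ℝ) : Prop :=
  Measurable f ∧ ∃ B : ℝ, 0 ≤ B ∧ ∀ x, |f x| ≤ B * Real.exp (B * ∑ i, |x i|)

variable {N : ℕ}

lemma sum_abs_nonneg (x : Fin N → ℝ) : 0 ≤ ∑ i, |x i| := Finset.sum_nonneg fun i _ => abs_nonneg _

lemma Gr.of_le {f : (Fin N → ℝ) → ℝ} (hf : Measurable f) {B b : ℝ}
    (h : ∀ x, |f x| ≤ B * Real.exp (b * ∑ i, |x i|)) : Gr f := by
  refine ⟨hf, max (max B b) 0, le_max_right _ _, fun r => (h r).trans ?_⟩
  have h1 : b ≤ max (max B b) 0 := (le_max_right _ _).trans (le_max_left _ _)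
  have h2 : B ≤ max (max B b) 0 := (le_max_left _ _).trans (le_max_left _ _)
  have h3 : Real.exp (b * ∑ i, |r i|) ≤ Real.exp (max (max B b) 0 * ∑ i, |r i|) :=
    Real.exp_le_exp.2 (mul_le_mul_of_nonneg_right h1 (sum_abs_nonneg _))
  exact mul_le_mul h2 h3 (Real.exp_pos _).le (le_max_right _ _)

lemma Gr.meas {f : (Fin N → ℝ) → ℝ} (h : Gr f) : Measurable f := h.1

lemma Gr.const (c : ℝ) : Gr fun _ : Fin N → ℝ => c :=
  Gr.of_le measurable_const (B := |c|) (b := 0) fun r => by simp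

lemma Gr.add {f g : (Fin N → ℝ) → ℝ} (hf : Gr f) (hg : Gr g) : Gr fun r => f r + g r := by
  obtain ⟨hfm, B, hB, hb⟩ := hf
  obtain ⟨hgm, C, hC, hc⟩ := hg
  refine Gr.of_le (hfm.add hgm) (B := B + C) (b := B + C) fun r => ?_
  have hs := sum_abs_nonneg r
  have h1 : Real.exp (B * ∑ i, |r i|) ≤ Real.exp ((B + C) * ∑ i, |r i|) := Real.exp_le_exp.2 (by nlinarith)
  have h2 : Real.exp (C * ∑ i, |r i|) ≤ Real.exp ((B + C) * ∑ i, |r i|) := Real.exp_le_exp.2 (by nlinarith)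
  calc |f r + g r| ≤ |f r| + |g r| := abs_add_le _ _
    _ ≤ B * Real.exp (B * ∑ i, |r i|) + C * Real.exp (C * ∑ i, |r i|) := add_le_add (hb r) (hc r)
    _ ≤ B * Real.exp ((B + C) * ∑ i, |r i|) + C * Real.exp ((B + C) * ∑ i, |r i|) := by gcongr
    _ = (B + C) * Real.exp ((B + C) * ∑ i, |r i|) := by ring

lemma Gr.mul {f g : (Fin N → ℝ) → ℝ} (hf : Gr f) (hg : Gr g) : Gr fun r => f r * g r := by
  obtain ⟨hfm, B, hB, hb⟩ := hf
  obtain ⟨hgm, C, hC, hc⟩ := hg
  refine Gr.of_le (hfm.mul hgm) (B := B * C) (b := B + C) fun r => ?_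
  rw [abs_mul]
  calc |f r| * |g r| ≤ (B * Real.exp (B * ∑ i, |r i|)) * (C * Real.exp (C * ∑ i, |r i|)) :=
        mul_le_mul (hb r) (hc r) (abs_nonneg _) (by positivity)
    _ = B * C * Real.exp ((B + C) * ∑ i, |r i|) := by
        have : Real.exp ((B + C) * ∑ i, |r i|) = Real.exp (B * ∑ i, |r i|) * Real.exp (C * ∑ i, |r i|) := by
          rw [← Real.exp_add]
          congr 1
          ring
        rw [this]
        ring

lemma Gr.neg {f : (Fin N → ℝ) → ℝ} (hf : Gr f) : Gr fun r => -f r := by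
  have := (Gr.const (N := N) (-1)).mul hf
  simpa using this

lemma Gr.sub {f g : (Fin N → ℝ) → ℝ} (hf : Gr f) (hg : Gr g) : Gr fun r => f r - g r := by
  have := hf.add hg.neg
  simpa [sub_eq_add_neg] using this

lemma exp_sum_int {μ : Measure ℝ} [IsProbabilityMeasure μ] (hμ : EM μ) (B : ℝ) :
    Integrable (fun x : Fin N → ℝ => Real.exp (B * ∑ i, |x i|)) (Measure.pi fun _ => μ) := by
  have h : (fun x : Fin N → ℝ => Real.exp (B * ∑ i, |x i|)) = fun x => ∏ i, Real.exp (B * |x i|) := by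
    funext x
    rw [Finset.mul_sum, Real.exp_sum]
  rw [h]
  exact Integrable.fintype_prod fun i => hμ B

lemma Gr.integrable {μ : Measure ℝ} [IsProbabilityMeasure μ] (hμ : EM μ) {f : (Fin N → ℝ) → ℝ} (h : Gr f) :
    Integrable f (Measure.pi fun _ => μ) := by
  obtain ⟨hf, B, hB, hb⟩ := h
  exact ((exp_sum_int hμ B).const_mul B).mono' hf.aestronglyMeasurable (Filter.Eventually.of_forall fun r => by
    rw [Real.norm_eq_abs]
    exact hb r)

lemma sum_abs_cons (r : ℝ) (x : Fin N → ℝ) :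
    ∑ i, |(Fin.cons r x : Fin (N + 1) → ℝ) i| = |r| + ∑ i, |x i| := by
  rw [Fin.sum_univ_succ]
  simp

lemma Gr.slice {f : (Fin (N + 1) → ℝ) → ℝ} (h : Gr f) (r : ℝ) :
    Gr fun x : Fin N → ℝ => f (Fin.cons r x : Fin (N + 1) → ℝ) := by
  obtain ⟨hf, B, hB, hb⟩ := h
  refine Gr.of_le (hf.comp (measurable_cons.comp measurable_prodMk_left)) (B := B * Real.exp (B * |r|)) (b := B)
    fun x => (hb _).trans (le_of_eq ?_)
  rw [sum_abs_cons, mul_add, Real.exp_add]
  ring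

lemma Gr.inner {μ : Measure ℝ} [IsProbabilityMeasure μ] (hμ : EM μ) {f : (Fin (N + 1) → ℝ) → ℝ} (h : Gr f) :
    G1 fun r => ∫ x, f (Fin.cons r x : Fin (N + 1) → ℝ) ∂(Measure.pi fun _ : Fin N => μ) := by
  have hs := h
  obtain ⟨hf, B, hB, hb⟩ := h
  refine G1.of_le (measurable_inner μ hf)
    (B := B * ∫ x : Fin N → ℝ, Real.exp (B * ∑ i, |x i|) ∂(Measure.pi fun _ => μ)) (b := B) fun r => ?_
  refine (abs_integral_le_integral_abs).trans ?_
  have e1 : B * (∫ x : Fin N → ℝ, Real.exp (B * ∑ i, |x i|) ∂(Measure.pi fun _ => μ)) * Real.exp (B * |r|) =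
      ∫ x : Fin N → ℝ, B * Real.exp (B * |r|) * Real.exp (B * ∑ i, |x i|) ∂(Measure.pi fun _ => μ) := by
    rw [integral_const_mul]
    ring
  rw [e1]
  apply integral_mono ((hs.slice r).integrable hμ).abs ((exp_sum_int hμ B).const_mul _)
  intro x
  refine (hb _).trans (le_of_eq ?_)
  rw [sum_abs_cons, mul_add, Real.exp_add]
  ring

lemma Gr.fubini {μ : Measure ℝ} [IsProbabilityMeasure μ] (hμ : EM μ) {f : (Fin (N + 1) → ℝ) → ℝ} (h : Gr f) :
    ∫ x, f x ∂(Measure.pi fun _ : Fin (N + 1) => μ) =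
      ∫ r, ∫ x, f (Fin.cons r x : Fin (N + 1) → ℝ) ∂(Measure.pi fun _ : Fin N => μ) ∂μ := by
  have hi := h.integrable hμ
  rw [← (mp_cons μ N).map_eq] at hi ⊢
  rw [integral_map (measurable_cons).aemeasurable h.meas.aestronglyMeasurable]
  have hi2 : Integrable (fun p : ℝ × (Fin N → ℝ) => f (Fin.cons p.1 p.2 : Fin (N + 1) → ℝ))
      (μ.prod (Measure.pi fun _ : Fin N => μ)) :=
    (integrable_map_measure h.meas.aestronglyMeasurable (measurable_cons).aemeasurable).1 hi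
  exact integral_prod _ hi2

end

end Pool.Agent.W_7d29a1_LE
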