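import Pool.Agent.W_7d29a1_LE.LeD

/-!
MP_7d29a1_pr, row 621: the doubling inequality for the log-Laplace transform.
Part E: convex functions with a Harnack inequality for the gradient; the partition function as a function of the
first coordinate. (helper84)
-/

namespace Pool.Agent.W_7d29a1_LE

open MeasureTheory Set
open Pool.Agent.W_7d29a1_h47 (EM)
open Pool.Agent.W_7d29a1_t2 (mp_cons measurable_cons measurable_inner)

noncomputable section

/-- A function with a gradient in `[0, 1]`, convex in every coordinate, with the Harnack inequality for the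
gradient. -/
structure Pot {N : ℕ} (F : (Fin N → ℝ) → ℝ) (D : Fin N → (Fin N → ℝ) → ℝ) : Prop where
  measF : Measurable F
  measD : ∀ i, Measurable (D i)
  grow : ∃ B : ℝ, 0 ≤ B ∧ ∀ x, |F x| ≤ B + ∑ i, |x i|
  D0 : ∀ i x, 0 ≤ D i x
  D1 : ∀ i x, D i x ≤ 1
  lo : ∀ (i : Fin N) (x : Fin N → ℝ) (s t : ℝ), s ≤ t →
    D i (Function.update x i s) * (t - s) ≤ F (Function.update x i t) - F (Function.update x i s)
  hi : ∀ (i : Fin N) (x : Fin N → ℝ) (s t : ℝ), s ≤ t →
    F (Function.update x i t) - F (Function.update x i s) ≤ D i (Function.update x i t) * (t - s)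
  har : ∀ (i : Fin N) (x : Fin N → ℝ) (s t : ℝ), s ≤ t →
    D i (Function.update x i t) ≤ Real.exp (t - s) * D i (Function.update x i s)

variable {N : ℕ}

lemma Pot.slice {F : (Fin (N + 1) → ℝ) → ℝ} {D : Fin (N + 1) → (Fin (N + 1) → ℝ) → ℝ} (h : Pot F D) (r : ℝ) :
    Pot (fun x : Fin N → ℝ => F (Fin.cons r x : Fin (N + 1) → ℝ))
      (fun (i : Fin N) (x : Fin N → ℝ) => D i.succ (Fin.cons r x : Fin (N + 1) → ℝ)) := by
  have hm : Measurable fun x : Fin N → ℝ => (Fin.cons r x : Fin (N + 1) → ℝ) :=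
    measurable_cons.comp measurable_prodMk_left
  refine ⟨h.measF.comp hm, fun i => (h.measD _).comp hm, ?_, fun i x => h.D0 _ _, fun i x => h.D1 _ _,
    fun i x s t hst => ?_, fun i x s t hst => ?_, fun i x s t hst => ?_⟩
  · obtain ⟨B, hB, hb⟩ := h.grow
    refine ⟨B + |r|, by positivity, fun x => (hb _).trans (le_of_eq ?_)⟩
    rw [sum_abs_cons]
    ring
  · simp only [Fin.cons_update]
    exact h.lo _ _ _ _ hst
  · simp only [Fin.cons_update]
    exact h.hi _ _ _ _ hst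
  · simp only [Fin.cons_update]
    exact h.har _ _ _ _ hst

section first

variable {F : (Fin (N + 1) → ℝ) → ℝ} {D : Fin (N + 1) → (Fin (N + 1) → ℝ) → ℝ}

lemma Pot.lo0 (h : Pot F D) (x : Fin N → ℝ) {s t : ℝ} (hst : s ≤ t) :
    D 0 (Fin.cons s x : Fin (N + 1) → ℝ) * (t - s) ≤
      F (Fin.cons t x : Fin (N + 1) → ℝ) - F (Fin.cons s x : Fin (N + 1) → ℝ) := by
  have := h.lo 0 (Fin.cons s x) s t hst
  simpa using this

lemma Pot.hi0 (h : Pot F D) (x : Fin N → ℝ) {s t : ℝ} (hst : s ≤ t) :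
    F (Fin.cons t x : Fin (N + 1) → ℝ) - F (Fin.cons s x : Fin (N + 1) → ℝ) ≤
      D 0 (Fin.cons t x : Fin (N + 1) → ℝ) * (t - s) := by
  have := h.hi 0 (Fin.cons s x) s t hst
  simpa using this

lemma Pot.har0 (h : Pot F D) (x : Fin N → ℝ) {s t : ℝ} (hst : s ≤ t) :
    D 0 (Fin.cons t x : Fin (N + 1) → ℝ) ≤ Real.exp (t - s) * D 0 (Fin.cons s x : Fin (N + 1) → ℝ) := by
  have := h.har 0 (Fin.cons s x) s t hst
  simpa using this

lemma Pot.monoF (h : Pot F D) (x : Fin N → ℝ) {s t : ℝ} (hst : s ≤ t) :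
    F (Fin.cons s x : Fin (N + 1) → ℝ) ≤ F (Fin.cons t x : Fin (N + 1) → ℝ) := by
  have := h.lo0 x hst
  have h2 := mul_nonneg (h.D0 0 (Fin.cons s x : Fin (N + 1) → ℝ)) (sub_nonneg.2 hst)
  linarith

lemma Pot.lipF (h : Pot F D) (x : Fin N → ℝ) {s t : ℝ} (hst : s ≤ t) :
    F (Fin.cons t x : Fin (N + 1) → ℝ) ≤ F (Fin.cons s x : Fin (N + 1) → ℝ) + (t - s) := by
  have := h.hi0 x hst
  have h2 := mul_le_mul_of_nonneg_right (h.D1 0 (Fin.cons t x : Fin (N + 1) → ℝ)) (sub_nonneg.2 hst)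
  linarith

lemma Pot.monoD (h : Pot F D) (x : Fin N → ℝ) {s t : ℝ} (hst : s ≤ t) :
    D 0 (Fin.cons s x : Fin (N + 1) → ℝ) ≤ D 0 (Fin.cons t x : Fin (N + 1) → ℝ) := by
  rcases eq_or_lt_of_le hst with h1 | h1
  · rw [h1]
  · have h2 := (h.lo0 x hst).trans (h.hi0 x hst)
    exact le_of_mul_le_mul_right h2 (by linarith)

end first

lemma Pot.GrF {F : (Fin N → ℝ) → ℝ} {D : Fin N → (Fin N → ℝ) → ℝ} (h : Pot F D) : Gr F := by
  obtain ⟨B, hB, hb⟩ := h.grow
  refine Gr.of_le h.measF (B := B + 1) (b := 1) fun x => (hb x).trans ?_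
  have hs := sum_abs_nonneg x
  have h1 := Real.add_one_le_exp (1 * ∑ i, |x i|)
  have h2 : 1 ≤ Real.exp (1 * ∑ i, |x i|) := Real.one_le_exp (by linarith)
  nlinarith

lemma Pot.GrD {F : (Fin N → ℝ) → ℝ} {D : Fin N → (Fin N → ℝ) → ℝ} (h : Pot F D) (i : Fin N) : Gr (D i) := by
  refine Gr.of_le (h.measD i) (B := 1) (b := 0) fun x => ?_
  rw [abs_of_nonneg (h.D0 i x)]
  simpa using h.D1 i x

lemma Pot.GrE {F : (Fin N → ℝ) → ℝ} {D : Fin N → (Fin N → ℝ) → ℝ} (h : Pot F D) {t : ℝ} (ht0 : 0 ≤ t) :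
    Gr fun x => Real.exp (t * F x) := by
  obtain ⟨B, hB, hb⟩ := h.grow
  refine Gr.of_le (Real.measurable_exp.comp (h.measF.const_mul t)) (B := Real.exp (t * B)) (b := t) fun x => ?_
  rw [abs_of_pos (Real.exp_pos _), ← Real.exp_add]
  apply Real.exp_le_exp.2
  have h1 := (le_abs_self (F x)).trans (hb x)
  nlinarith

variable {μ : Measure ℝ} [IsProbabilityMeasure μ]

/-- The partition function. -/
def ZZ (μ : Measure ℝ) (t : ℝ) (F : (Fin N → ℝ) → ℝ) : ℝ :=
  ∫ x, Real.exp (t * F x) ∂(Measure.pi fun _ : Fin N => μ)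

/-- The Gibbs mean. -/
def EE (μ : Measure ℝ) (t : ℝ) (F f : (Fin N → ℝ) → ℝ) : ℝ :=
  (∫ x, f x * Real.exp (t * F x) ∂(Measure.pi fun _ : Fin N => μ)) / ZZ μ t F

lemma ZZ_pos (hμ : EM μ) {F : (Fin N → ℝ) → ℝ} {D : Fin N → (Fin N → ℝ) → ℝ} (h : Pot F D) {t : ℝ}
    (ht0 : 0 ≤ t) : 0 < ZZ μ t F := by
  unfold ZZ
  exact integral_exp_pos ((h.GrE ht0).integrable hμ)

lemma EE_mul (hμ : EM μ) {F : (Fin N → ℝ) → ℝ} {D : Fin N → (Fin N → ℝ) → ℝ} (h : Pot F D) {t : ℝ}
    (ht0 : 0 ≤ t) (f : (Fin N → ℝ) → ℝ) :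
    EE μ t F f * ZZ μ t F = ∫ x, f x * Real.exp (t * F x) ∂(Measure.pi fun _ : Fin N => μ) := by
  unfold EE
  exact div_mul_cancel₀ _ (ZZ_pos hμ h ht0).ne'

/-- `exp` lies above its tangents. -/
lemma tangent (u c : ℝ) : Real.exp c * (1 + u - c) ≤ Real.exp u := by
  have h1 := Real.add_one_le_exp (u - c)
  have h2 : Real.exp u = Real.exp c * Real.exp (u - c) := by
    rw [← Real.exp_add]
    congr 1
    ring
  rw [h2]
  exact mul_le_mul_of_nonneg_left (by linarith) (Real.exp_pos c).le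

section first

variable {F : (Fin (N + 1) → ℝ) → ℝ} {D : Fin (N + 1) → (Fin (N + 1) → ℝ) → ℝ}

/-- The partition function as a function of the first coordinate. -/
def Z1 (μ : Measure ℝ) (t : ℝ) (F : (Fin (N + 1) → ℝ) → ℝ) (r : ℝ) : ℝ :=
  ZZ μ t fun x : Fin N → ℝ => F (Fin.cons r x : Fin (N + 1) → ℝ)

/-- The conditional Gibbs mean given the first coordinate. -/
def E1 (μ : Measure ℝ) (t : ℝ) (F f : (Fin (N + 1) → ℝ) → ℝ) (r : ℝ) : ℝ :=
  EE μ t (fun x : Fin N → ℝ => F (Fin.cons r x : Fin (N + 1) → ℝ))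
    (fun x : Fin N → ℝ => f (Fin.cons r x : Fin (N + 1) → ℝ))

lemma Z1_pos (hμ : EM μ) (h : Pot F D) {t : ℝ} (ht0 : 0 ≤ t) (r : ℝ) : 0 < Z1 μ t F r :=
  ZZ_pos hμ (h.slice r) ht0

lemma E1_mul (hμ : EM μ) (h : Pot F D) {t : ℝ} (ht0 : 0 ≤ t) (f : (Fin (N + 1) → ℝ) → ℝ) (r : ℝ) :
    E1 μ t F f r * Z1 μ t F r = ∫ x, f (Fin.cons r x : Fin (N + 1) → ℝ) *
      Real.exp (t * F (Fin.cons r x : Fin (N + 1) → ℝ)) ∂(Measure.pi fun _ : Fin N => μ) :=
  EE_mul hμ (h.slice r) ht0 _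

/-- The conditional mean of the first component of the gradient. -/
def Gd (μ : Measure ℝ) (t : ℝ) (F : (Fin (N + 1) → ℝ) → ℝ) (D : Fin (N + 1) → (Fin (N + 1) → ℝ) → ℝ) (r : ℝ) :
    ℝ := E1 μ t F (D 0) r

lemma Gd_nonneg (hμ : EM μ) (h : Pot F D) {t : ℝ} (ht0 : 0 ≤ t) (r : ℝ) : 0 ≤ Gd μ t F D r := by
  apply div_nonneg _ (Z1_pos hμ h ht0 r).le
  exact integral_nonneg fun x => mul_nonneg (h.D0 _ _) (Real.exp_pos _).le

lemma Gd_le_one (hμ : EM μ) (h : Pot F D) {t : ℝ} (ht0 : 0 ≤ t) (r : ℝ) : Gd μ t F D r ≤ 1 := by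
  have h1 : Gd μ t F D r * Z1 μ t F r ≤ 1 * Z1 μ t F r := by
    unfold Gd
    rw [E1_mul hμ h ht0, one_mul]
    apply integral_mono ((((h.GrD 0).slice r).mul ((h.slice r).GrE ht0)).integrable hμ)
      (((h.slice r).GrE ht0).integrable hμ)
    intro x
    have := mul_le_mul_of_nonneg_right (h.D1 0 (Fin.cons r x : Fin (N + 1) → ℝ))
      (Real.exp_pos (t * F (Fin.cons r x : Fin (N + 1) → ℝ))).le
    simpa using this
  exact le_of_mul_le_mul_right h1 (Z1_pos hμ h ht0 r)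

/-- (A) upwards. -/
lemma Z1_ge (hμ : EM μ) (h : Pot F D) {t : ℝ} (ht0 : 0 ≤ t) {r s : ℝ} (hrs : r ≤ s) :
    Real.exp (t * Gd μ t F D r * (s - r)) * Z1 μ t F r ≤ Z1 μ t F s := by
  set c := t * Gd μ t F D r * (s - r) with hc
  have gE := (h.slice r).GrE ht0
  have gDE := ((h.GrD 0).slice r).mul gE
  have h1 : ∫ x, Real.exp c * (1 - c) * Real.exp (t * F (Fin.cons r x : Fin (N + 1) → ℝ)) +
      Real.exp c * (t * (s - r)) * (D 0 (Fin.cons r x : Fin (N + 1) → ℝ) *
        Real.exp (t * F (Fin.cons r x : Fin (N + 1) → ℝ))) ∂(Measure.pi fun _ : Fin N => μ) ≤ Z1 μ t F s := by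
    apply integral_mono
    · exact (((Gr.const _).mul gE).add ((Gr.const _).mul gDE)).integrable hμ
    · exact ((h.slice s).GrE ht0).integrable hμ
    · intro x
      have h2 := h.lo0 x hrs
      set u := t * (D 0 (Fin.cons r x : Fin (N + 1) → ℝ) * (s - r)) with hu
      have h3 : Real.exp (t * F (Fin.cons r x : Fin (N + 1) → ℝ)) * Real.exp u ≤
          Real.exp (t * F (Fin.cons s x : Fin (N + 1) → ℝ)) := by
        rw [← Real.exp_add]
        apply Real.exp_le_exp.2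
        nlinarith
      refine le_trans ?_ h3
      have h4 := mul_le_mul_of_nonneg_left (tangent u c)
        (Real.exp_pos (t * F (Fin.cons r x : Fin (N + 1) → ℝ))).le
      refine le_trans (le_of_eq ?_) h4
      rw [hu]
      ring
  rw [integral_add (((Gr.const _).mul gE).integrable hμ) (((Gr.const _).mul gDE).integrable hμ),
    integral_const_mul, integral_const_mul, ← E1_mul hμ h ht0 (D 0) r] at h1
  have e1 : ∫ x, Real.exp (t * F (Fin.cons r x : Fin (N + 1) → ℝ)) ∂(Measure.pi fun _ : Fin N => μ) =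
      Z1 μ t F r := rfl
  rw [e1] at h1
  refine le_trans (le_of_eq ?_) h1
  have e2 : E1 μ t F (D 0) r = Gd μ t F D r := rfl
  rw [e2]
  have e3 : Real.exp c * (t * (s - r)) * (Gd μ t F D r * Z1 μ t F r) = Real.exp c * c * Z1 μ t F r := by
    rw [hc]
    ring
  rw [e3]
  ring

/-- (C) downwards. -/
lemma Z1_ge' (hμ : EM μ) (h : Pot F D) {t : ℝ} (ht0 : 0 ≤ t) {r s : ℝ} (hrs : s ≤ r) :
    Real.exp (-(t * Gd μ t F D r * (r - s))) * Z1 μ t F r ≤ Z1 μ t F s := by
  set c := -(t * Gd μ t F D r * (r - s)) with hc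
  have gE := (h.slice r).GrE ht0
  have gDE := ((h.GrD 0).slice r).mul gE
  have h1 : ∫ x, Real.exp c * (1 - c) * Real.exp (t * F (Fin.cons r x : Fin (N + 1) → ℝ)) +
      Real.exp c * (-(t * (r - s))) * (D 0 (Fin.cons r x : Fin (N + 1) → ℝ) *
        Real.exp (t * F (Fin.cons r x : Fin (N + 1) → ℝ))) ∂(Measure.pi fun _ : Fin N => μ) ≤ Z1 μ t F s := by
    apply integral_mono
    · exact (((Gr.const _).mul gE).add ((Gr.const _).mul gDE)).integrable hμ
    · exact ((h.slice s).GrE ht0).integrable hμ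
    · intro x
      have h2 := h.hi0 x hrs
      set u := -(t * (D 0 (Fin.cons r x : Fin (N + 1) → ℝ) * (r - s))) with hu
      have h3 : Real.exp (t * F (Fin.cons r x : Fin (N + 1) → ℝ)) * Real.exp u ≤
          Real.exp (t * F (Fin.cons s x : Fin (N + 1) → ℝ)) := by
        rw [← Real.exp_add]
        apply Real.exp_le_exp.2
        nlinarith
      refine le_trans ?_ h3
      have h4 := mul_le_mul_of_nonneg_left (tangent u c)
        (Real.exp_pos (t * F (Fin.cons r x : Fin (N + 1) → ℝ))).le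
      refine le_trans (le_of_eq ?_) h4
      rw [hu]
      ring
  rw [integral_add (((Gr.const _).mul gE).integrable hμ) (((Gr.const _).mul gDE).integrable hμ),
    integral_const_mul, integral_const_mul, ← E1_mul hμ h ht0 (D 0) r] at h1
  have e1 : ∫ x, Real.exp (t * F (Fin.cons r x : Fin (N + 1) → ℝ)) ∂(Measure.pi fun _ : Fin N => μ) =
      Z1 μ t F r := rfl
  rw [e1] at h1
  refine le_trans (le_of_eq ?_) h1
  have e2 : E1 μ t F (D 0) r = Gd μ t F D r := rfl
  rw [e2]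
  have e3 : Real.exp c * (-(t * (r - s))) * (Gd μ t F D r * Z1 μ t F r) = Real.exp c * c * Z1 μ t F r := by
    rw [hc]
    ring
  rw [e3]
  ring

/-- (B) upwards, upper bound. -/
lemma Z1_le (hμ : EM μ) (h : Pot F D) {t : ℝ} (ht0 : 0 ≤ t) (ht1 : t ≤ 1) {r s : ℝ} (hrs : r ≤ s) :
    Z1 μ t F s ≤ (1 + t * Gd μ t F D r * ((s - r) * Real.exp (2 * (s - r)))) * Z1 μ t F r := by
  have gE := (h.slice r).GrE ht0
  have gDE := ((h.GrD 0).slice r).mul gE
  have hsr : 0 ≤ s - r := sub_nonneg.2 hrs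
  have h1 : Z1 μ t F s ≤ ∫ x, Real.exp (t * F (Fin.cons r x : Fin (N + 1) → ℝ)) +
      t * ((s - r) * Real.exp (2 * (s - r))) * (D 0 (Fin.cons r x : Fin (N + 1) → ℝ) *
        Real.exp (t * F (Fin.cons r x : Fin (N + 1) → ℝ))) ∂(Measure.pi fun _ : Fin N => μ) := by
    apply integral_mono
    · exact ((h.slice s).GrE ht0).integrable hμ
    · exact (gE.add ((Gr.const _).mul gDE)).integrable hμ
    · intro x
      have hD0 := h.D0 0 (Fin.cons r x : Fin (N + 1) → ℝ)
      set d := D 0 (Fin.cons r x : Fin (N + 1) → ℝ) with hd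
      set u := t * (F (Fin.cons s x : Fin (N + 1) → ℝ) - F (Fin.cons r x : Fin (N + 1) → ℝ)) with hu
      have hu0 : 0 ≤ u := mul_nonneg ht0 (sub_nonneg.2 (h.monoF x hrs))
      have hu1 : u ≤ t * (Real.exp (s - r) * d * (s - r)) := by
        apply mul_le_mul_of_nonneg_left _ ht0
        exact (h.hi0 x hrs).trans (mul_le_mul_of_nonneg_right (h.har0 x hrs) hsr)
      have hu2 : u ≤ s - r := by
        have h2 := h.lipF x hrs
        have h3 : F (Fin.cons s x : Fin (N + 1) → ℝ) - F (Fin.cons r x : Fin (N + 1) → ℝ) ≤ s - r := by linarith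
        calc u ≤ t * (s - r) := mul_le_mul_of_nonneg_left h3 ht0
          _ ≤ s - r := by nlinarith
      have hexp : Real.exp u ≤ 1 + u * Real.exp u := by
        have h5 := Real.add_one_le_exp (-u)
        have h6 : Real.exp u * Real.exp (-u) = 1 := by
          rw [← Real.exp_add]
          simp
        nlinarith [mul_le_mul_of_nonneg_left h5 (Real.exp_pos u).le]
      have h7 : Real.exp u ≤ 1 + t * ((s - r) * Real.exp (2 * (s - r))) * d := by
        have h8 : u * Real.exp u ≤ (t * (Real.exp (s - r) * d * (s - r))) * Real.exp (s - r) :=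
          mul_le_mul hu1 (Real.exp_le_exp.2 hu2) (Real.exp_pos _).le (by positivity)
        have h9 : Real.exp (2 * (s - r)) = Real.exp (s - r) * Real.exp (s - r) := by
          rw [← Real.exp_add]
          congr 1
          ring
        rw [h9]
        nlinarith
      have h10 : Real.exp (t * F (Fin.cons s x : Fin (N + 1) → ℝ)) =
          Real.exp (t * F (Fin.cons r x : Fin (N + 1) → ℝ)) * Real.exp u := by
        rw [← Real.exp_add]
        congr 1
        rw [hu]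
        ring
      show Real.exp (t * F (Fin.cons s x : Fin (N + 1) → ℝ)) ≤ _
      rw [h10]
      have h11 := mul_le_mul_of_nonneg_left h7 (Real.exp_pos (t * F (Fin.cons r x : Fin (N + 1) → ℝ))).le
      refine h11.trans (le_of_eq ?_)
      ring
  rw [integral_add (gE.integrable hμ) (((Gr.const _).mul gDE).integrable hμ), integral_const_mul,
    ← E1_mul hμ h ht0 (D 0) r] at h1
  have e1 : ∫ x, Real.exp (t * F (Fin.cons r x : Fin (N + 1) → ℝ)) ∂(Measure.pi fun _ : Fin N => μ) =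
      Z1 μ t F r := rfl
  rw [e1] at h1
  refine h1.trans (le_of_eq ?_)
  have e2 : E1 μ t F (D 0) r = Gd μ t F D r := rfl
  rw [e2]
  ring

/-- Monotonicity. -/
lemma Z1_mono (hμ : EM μ) (h : Pot F D) {t : ℝ} (ht0 : 0 ≤ t) {r s : ℝ} (hrs : r ≤ s) :
    Z1 μ t F r ≤ Z1 μ t F s := by
  apply integral_mono (((h.slice r).GrE ht0).integrable hμ) (((h.slice s).GrE ht0).integrable hμ)
  intro x
  exact Real.exp_le_exp.2 (mul_le_mul_of_nonneg_left (h.monoF x hrs) ht0)

/-- Lipschitz bound. -/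
lemma Z1_lip (hμ : EM μ) (h : Pot F D) {t : ℝ} (ht0 : 0 ≤ t) (ht1 : t ≤ 1) {r s : ℝ} (hrs : r ≤ s) :
    Z1 μ t F s ≤ Real.exp (s - r) * Z1 μ t F r := by
  unfold Z1 ZZ
  rw [← integral_const_mul]
  apply integral_mono (((h.slice s).GrE ht0).integrable hμ) (((h.slice r).GrE ht0).integrable hμ |>.const_mul _)
  intro x
  show Real.exp (t * F (Fin.cons s x : Fin (N + 1) → ℝ)) ≤
    Real.exp (s - r) * Real.exp (t * F (Fin.cons r x : Fin (N + 1) → ℝ))
  rw [← Real.exp_add]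
  apply Real.exp_le_exp.2
  have h1 := mul_le_mul_of_nonneg_left (h.lipF x hrs) ht0
  have h2 : t * (s - r) ≤ s - r := by nlinarith
  linarith

/-- (D) Harnack for the conditional mean of the gradient. -/
lemma Gd_har (hμ : EM μ) (h : Pot F D) {t : ℝ} (ht0 : 0 ≤ t) (ht1 : t ≤ 1) (r s : ℝ) :
    Gd μ t F D r ≤ Real.exp (2 * |r - s|) * Gd μ t F D s := by
  have hZr := Z1_pos hμ h ht0 r
  have hZs := Z1_pos hμ h ht0 s
  have gr := ((h.GrD 0).slice r).mul ((h.slice r).GrE ht0)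
  have gs := ((h.GrD 0).slice s).mul ((h.slice s).GrE ht0)
  rcases le_total s r with hsr | hsr
  · rw [abs_of_nonneg (sub_nonneg.2 hsr)]
    have h1 : Gd μ t F D r * Z1 μ t F r ≤ Real.exp (2 * (r - s)) * (Gd μ t F D s * Z1 μ t F s) := by
      unfold Gd
      rw [E1_mul hμ h ht0, E1_mul hμ h ht0, ← integral_const_mul]
      apply integral_mono (gr.integrable hμ) ((gs.integrable hμ).const_mul _)
      intro x
      show D 0 (Fin.cons r x : Fin (N + 1) → ℝ) * Real.exp (t * F (Fin.cons r x : Fin (N + 1) → ℝ)) ≤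
        Real.exp (2 * (r - s)) * (D 0 (Fin.cons s x : Fin (N + 1) → ℝ) *
          Real.exp (t * F (Fin.cons s x : Fin (N + 1) → ℝ)))
      have h2 := h.har0 x hsr
      have h3 : Real.exp (t * F (Fin.cons r x : Fin (N + 1) → ℝ)) ≤
          Real.exp (r - s) * Real.exp (t * F (Fin.cons s x : Fin (N + 1) → ℝ)) := by
        rw [← Real.exp_add]
        apply Real.exp_le_exp.2
        have h1 := mul_le_mul_of_nonneg_left (h.lipF x hsr) ht0
        have h2 : t * (r - s) ≤ r - s := by nlinarith [sub_nonneg.2 hsr]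
        linarith
      have h4 := mul_le_mul h2 h3 (Real.exp_pos _).le
        (mul_nonneg (Real.exp_pos _).le (h.D0 0 (Fin.cons s x : Fin (N + 1) → ℝ)))
      refine h4.trans (le_of_eq ?_)
      have h9 : Real.exp (2 * (r - s)) = Real.exp (r - s) * Real.exp (r - s) := by
        rw [← Real.exp_add]
        congr 1
        ring
      rw [h9]
      ring
    have h5 := Z1_mono hμ h ht0 hsr
    have h6 : Gd μ t F D r * Z1 μ t F r ≤ Real.exp (2 * (r - s)) * Gd μ t F D s * Z1 μ t F r := by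
      refine h1.trans ?_
      rw [← mul_assoc]
      apply mul_le_mul_of_nonneg_left h5
      exact mul_nonneg (Real.exp_pos _).le (Gd_nonneg hμ h ht0 s)
    exact le_of_mul_le_mul_right h6 hZr
  · rw [abs_of_nonpos (sub_nonpos.2 hsr)]
    have h1 : Gd μ t F D r * Z1 μ t F r ≤ Gd μ t F D s * Z1 μ t F s := by
      unfold Gd
      rw [E1_mul hμ h ht0, E1_mul hμ h ht0]
      apply integral_mono (gr.integrable hμ) (gs.integrable hμ)
      intro x
      exact mul_le_mul (h.monoD x hsr) (Real.exp_le_exp.2 (mul_le_mul_of_nonneg_left (h.monoF x hsr) ht0))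
        (Real.exp_pos _).le (h.D0 0 (Fin.cons s x : Fin (N + 1) → ℝ))
    have h5 := Z1_lip hμ h ht0 ht1 hsr
    have h6 : Gd μ t F D r * Z1 μ t F r ≤ Real.exp (2 * -(r - s)) * Gd μ t F D s * Z1 μ t F r := by
      refine h1.trans ?_
      have h7 := mul_le_mul_of_nonneg_left h5 (Gd_nonneg hμ h ht0 s)
      refine h7.trans ?_
      have h8 : Real.exp (s - r) ≤ Real.exp (2 * -(r - s)) := Real.exp_le_exp.2 (by linarith)
      have h9 : 0 ≤ Gd μ t F D s * Z1 μ t F r := mul_nonneg (Gd_nonneg hμ h ht0 s) hZr.le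
      nlinarith [mul_le_mul_of_nonneg_right h8 h9]
    exact le_of_mul_le_mul_right h6 hZr

end first

end

end Pool.Agent.W_7d29a1_LE
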