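import Pool.Agent.W_7d29a1_LE.LeE

/-!
MP_7d29a1_pr, row 621: the doubling inequality for the log-Laplace transform.
Part F: the induction over the coordinates. (helper84)
-/

namespace Pool.Agent.W_7d29a1_LE

open MeasureTheory Set
open Pool.Agent.W_7d29a1_h47 (EM)
open Pool.Agent.W_7d29a1_t2 (mp_cons measurable_cons measurable_inner)

noncomputable section

variable {μ : Measure ℝ} [IsProbabilityMeasure μ]

section first

variable {N : ℕ} {F : (Fin (N + 1) → ℝ) → ℝ} {D : Fin (N + 1) → (Fin (N + 1) → ℝ) → ℝ}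

lemma G1_Z1 (hμ : EM μ) (h : Pot F D) {t : ℝ} (ht0 : 0 ≤ t) : G1 (Z1 μ t F) :=
  Gr.inner hμ (h.GrE ht0)

lemma abs_log_Z1 (hμ : EM μ) (h : Pot F D) {t : ℝ} (ht0 : 0 ≤ t) (ht1 : t ≤ 1) (r s : ℝ) :
    |Real.log (Z1 μ t F r) - Real.log (Z1 μ t F s)| ≤ |r - s| := by
  have key : ∀ {a b : ℝ}, a ≤ b → Real.log (Z1 μ t F a) ≤ Real.log (Z1 μ t F b) ∧
      Real.log (Z1 μ t F b) ≤ Real.log (Z1 μ t F a) + (b - a) := by
    intro a b hab
    have ha := Z1_pos hμ h ht0 a
    have hb := Z1_pos hμ h ht0 b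
    refine ⟨Real.log_le_log ha (Z1_mono hμ h ht0 hab), ?_⟩
    have h1 := Real.log_le_log hb (Z1_lip hμ h ht0 ht1 hab)
    rw [Real.log_mul (Real.exp_pos _).ne' ha.ne', Real.log_exp] at h1
    linarith
  rcases le_total r s with hrs | hrs
  · obtain ⟨h1, h2⟩ := key hrs
    rw [abs_of_nonpos (by linarith), abs_of_nonpos (by linarith)]
    linarith
  · obtain ⟨h1, h2⟩ := key hrs
    rw [abs_of_nonneg (by linarith), abs_of_nonneg (by linarith)]
    linarith

lemma G1_logZ (hμ : EM μ) (h : Pot F D) {t : ℝ} (ht0 : 0 ≤ t) (ht1 : t ≤ 1) :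
    G1 fun r => Real.log (Z1 μ t F r) := by
  refine G1.mono (Real.measurable_log.comp (G1_Z1 hμ h ht0).meas)
    ((G1.abs_sub 0).add (G1.const |Real.log (Z1 μ t F 0)|)) fun r => ?_
  have h1 := abs_log_Z1 hμ h ht0 ht1 r 0
  have h2 : |Real.log (Z1 μ t F r)| ≤ |Real.log (Z1 μ t F r) - Real.log (Z1 μ t F 0)| +
      |Real.log (Z1 μ t F 0)| := by
    have := abs_add_le (Real.log (Z1 μ t F r) - Real.log (Z1 μ t F 0)) (Real.log (Z1 μ t F 0))
    simpa using this
  linarith

lemma G1_invZ (hμ : EM μ) (h : Pot F D) {t : ℝ} (ht0 : 0 ≤ t) (ht1 : t ≤ 1) :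
    G1 fun r => (Z1 μ t F r)⁻¹ := by
  refine G1.mono (G1_Z1 hμ h ht0).meas.inv
    ((G1.exp_abs 1 0).mul (G1.const (Real.exp (-Real.log (Z1 μ t F 0))))) fun r => ?_
  have hp := Z1_pos hμ h ht0 r
  rw [abs_of_pos (inv_pos.2 hp), ← Real.exp_add]
  have e : (Z1 μ t F r)⁻¹ = Real.exp (-Real.log (Z1 μ t F r)) := by
    rw [Real.exp_neg, Real.exp_log hp]
  rw [e]
  apply Real.exp_le_exp.2
  have h1 := (abs_le.1 (abs_log_Z1 hμ h ht0 ht1 r 0)).1
  linarith

omit [IsProbabilityMeasure μ] in
lemma E1_eq (t : ℝ) (f : (Fin (N + 1) → ℝ) → ℝ) : E1 μ t F f = fun r => (∫ x, f (Fin.cons r x : Fin (N + 1) → ℝ) *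
      Real.exp (t * F (Fin.cons r x : Fin (N + 1) → ℝ)) ∂(Measure.pi fun _ : Fin N => μ)) * (Z1 μ t F r)⁻¹ := by
  funext r
  rw [← div_eq_mul_inv]
  rfl

lemma G1_E1 (hμ : EM μ) (h : Pot F D) {t : ℝ} (ht0 : 0 ≤ t) (ht1 : t ≤ 1) {f : (Fin (N + 1) → ℝ) → ℝ} (hf : Gr f) :
    G1 (E1 μ t F f) := by
  rw [E1_eq]
  exact (Gr.inner hμ (hf.mul (h.GrE ht0))).mul (G1_invZ hμ h ht0 ht1)

/-- The full partition function. -/
lemma ZZ_eq (hμ : EM μ) (h : Pot F D) {t : ℝ} (ht0 : 0 ≤ t) : ZZ μ t F = ∫ r, Z1 μ t F r ∂μ :=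
  Gr.fubini hμ (h.GrE ht0)

/-- The full Gibbs mean. -/
lemma EE_eq (hμ : EM μ) (h : Pot F D) {t : ℝ} (ht0 : 0 ≤ t) {f : (Fin (N + 1) → ℝ) → ℝ} (hf : Gr f) :
    EE μ t F f = ∫ r, Z1 μ t F r / (∫ u, Z1 μ t F u ∂μ) * E1 μ t F f r ∂μ := by
  unfold EE
  rw [Gr.fubini hμ (hf.mul (h.GrE ht0)), ZZ_eq hμ h ht0]
  have h1 : ∀ r, Z1 μ t F r / (∫ u, Z1 μ t F u ∂μ) * E1 μ t F f r =
      (E1 μ t F f r * Z1 μ t F r) / (∫ u, Z1 μ t F u ∂μ) := fun r => by ring
  simp_rw [h1, E1_mul hμ h ht0]
  rw [integral_div]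

end first

/-- THE ENTROPY INEQUALITY: for `Φ a ≥ f x + ∇F x (a - x)` the mean of `Φ` is at least the Gibbs mean of `f` minus a
constant times the relative entropy. -/
theorem entropy_ineq (hμ : EM μ) {xm xp q : ℝ} (hx : xm < xp) (hq : 0 < q) (hqm : q ≤ μ.real (Iic xm))
    (hqp : q ≤ μ.real (Ici xp)) : ∃ C : ℝ, 0 ≤ C ∧ ∀ (t : ℝ), 0 < t → t ≤ 1 →
    ∀ (N : ℕ) (F : (Fin N → ℝ) → ℝ) (D : Fin N → (Fin N → ℝ) → ℝ), Pot F D →
    ∀ Φ f : (Fin N → ℝ) → ℝ, Gr Φ → Gr f →
      (∀ x a, f x + ∑ i, D i x * (a i - x i) ≤ Φ a) →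
      EE μ t F f - C / t * (t * EE μ t F F - Real.log (ZZ μ t F)) ≤ ∫ x, Φ x ∂(Measure.pi fun _ : Fin N => μ) := by
  obtain ⟨C1, c1, hC1, hc1, hone⟩ := one_site hμ hx hq hqm hqp
  refine ⟨C1 / c1, by positivity, fun t ht0 ht1 N => ?_⟩
  set C := C1 / c1 with hC
  have hC0 : 0 ≤ C := by positivity
  induction N with
  | zero =>
    intro F D h Φ f hΦ hf hle
    have e : ∀ g : (Fin 0 → ℝ) → ℝ, ∫ x, g x ∂(Measure.pi fun _ : Fin 0 => μ) = g default := by
      intro g
      have h3 : (fun x => g x) = fun _ => g default := by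
        funext x
        congr 1
        exact Subsingleton.elim _ _
      rw [h3]
      simp
    have hZ : ZZ μ t F = Real.exp (t * F default) := e _
    have hE : ∀ g : (Fin 0 → ℝ) → ℝ, EE μ t F g = g default := by
      intro g
      unfold EE
      rw [hZ, e fun x => g x * Real.exp (t * F x)]
      have := Real.exp_pos (t * F default)
      field_simp
    rw [hE, hE, hZ, Real.log_exp, e]
    have h4 := hle default default
    rw [Finset.univ_eq_empty, Finset.sum_empty, add_zero] at h4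
    have h5 : C / t * (t * F default - t * F default) = 0 := by ring
    rw [h5]
    linarith
  | succ N ih =>
    intro F D h Φ f hΦ hf hle
    have ht0' : (0 : ℝ) ≤ t := ht0.le
    set Z := Z1 μ t F with hZ
    have hZp : ∀ r, 0 < Z r := Z1_pos hμ h ht0'
    have gZ : G1 Z := G1_Z1 hμ h ht0'
    set I := ∫ u, Z u ∂μ with hI
    have hIp : 0 < I := by
      have := ZZ_pos hμ h ht0'
      rw [ZZ_eq hμ h ht0'] at this
      exact this
    -- the conditional quantities
    set G := Gd μ t F D with hG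
    have gG : G1 G := G1_E1 hμ h ht0' ht1 (h.GrD 0)
    set R : ℝ → ℝ := fun r => E1 μ t F f r - C / t * (t * E1 μ t F F r - Real.log (Z r)) with hR
    have gEf : G1 (E1 μ t F f) := G1_E1 hμ h ht0' ht1 hf
    have gEF : G1 (E1 μ t F F) := G1_E1 hμ h ht0' ht1 h.GrF
    have glZ : G1 fun r => Real.log (Z r) := G1_logZ hμ h ht0' ht1
    have gH : G1 fun r => t * E1 μ t F F r - Real.log (Z r) := ((G1.const t).mul gEF).sub glZ
    have gR : G1 R := gEf.sub ((G1.const (C / t)).mul gH)
    set Φb : ℝ → ℝ := fun s => ∫ x, Φ (Fin.cons s x : Fin (N + 1) → ℝ) ∂(Measure.pi fun _ : Fin N => μ) with hΦb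
    have gΦb : G1 Φb := Gr.inner hμ hΦ
    have step : ∀ r s, R r + G r * (s - r) ≤ Φb s := by
      intro r s
      have h1 := ih (fun x : Fin N → ℝ => F (Fin.cons r x : Fin (N + 1) → ℝ))
        (fun (i : Fin N) (x : Fin N → ℝ) => D i.succ (Fin.cons r x : Fin (N + 1) → ℝ)) (h.slice r)
        (fun x : Fin N → ℝ => Φ (Fin.cons s x : Fin (N + 1) → ℝ))
        (fun x : Fin N → ℝ => f (Fin.cons r x : Fin (N + 1) → ℝ) +
          D 0 (Fin.cons r x : Fin (N + 1) → ℝ) * (s - r)) (hΦ.slice s)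
        ((hf.slice r).add (((h.GrD 0).slice r).mul (Gr.const (s - r)))) (by
          intro x a
          have h2 := hle (Fin.cons r x : Fin (N + 1) → ℝ) (Fin.cons s a : Fin (N + 1) → ℝ)
          rw [Fin.sum_univ_succ] at h2
          simp only [Fin.cons_zero, Fin.cons_succ] at h2
          linarith)
      have e1 : EE μ t (fun x : Fin N → ℝ => F (Fin.cons r x : Fin (N + 1) → ℝ))
          (fun x : Fin N → ℝ => f (Fin.cons r x : Fin (N + 1) → ℝ) +
            D 0 (Fin.cons r x : Fin (N + 1) → ℝ) * (s - r)) = E1 μ t F f r + G r * (s - r) := by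
        have gE := (h.slice r).GrE ht0'
        have i1 := ((hf.slice r).mul gE).integrable hμ
        have i2 := ((((h.GrD 0).slice r).mul gE).mul (Gr.const (s - r))).integrable hμ
        have e2 : ∫ x, (f (Fin.cons r x : Fin (N + 1) → ℝ) + D 0 (Fin.cons r x : Fin (N + 1) → ℝ) * (s - r)) *
            Real.exp (t * F (Fin.cons r x : Fin (N + 1) → ℝ)) ∂(Measure.pi fun _ : Fin N => μ) =
            E1 μ t F f r * Z r + G r * Z r * (s - r) := by
          have e3 : ∀ x : Fin N → ℝ, (f (Fin.cons r x : Fin (N + 1) → ℝ) +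
              D 0 (Fin.cons r x : Fin (N + 1) → ℝ) * (s - r)) *
              Real.exp (t * F (Fin.cons r x : Fin (N + 1) → ℝ)) =
              f (Fin.cons r x : Fin (N + 1) → ℝ) * Real.exp (t * F (Fin.cons r x : Fin (N + 1) → ℝ)) +
              D 0 (Fin.cons r x : Fin (N + 1) → ℝ) * Real.exp (t * F (Fin.cons r x : Fin (N + 1) → ℝ)) *
                (s - r) := fun x => by ring
          simp_rw [e3]
          rw [integral_add i1 i2, integral_mul_const]
          have a1 := E1_mul hμ h ht0' f r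
          have a2 := E1_mul hμ h ht0' (D 0) r
          rw [← a1, ← a2]
          rfl
        have e4 : EE μ t (fun x : Fin N → ℝ => F (Fin.cons r x : Fin (N + 1) → ℝ))
          (fun x : Fin N → ℝ => f (Fin.cons r x : Fin (N + 1) → ℝ) +
            D 0 (Fin.cons r x : Fin (N + 1) → ℝ) * (s - r)) =
            (E1 μ t F f r * Z r + G r * Z r * (s - r)) / Z r := by
          rw [← e2]
          rfl
        rw [e4]
        have := (hZp r).ne'
        field_simp
      rw [e1] at h1
      have e5 : EE μ t (fun x : Fin N → ℝ => F (Fin.cons r x : Fin (N + 1) → ℝ))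
          (fun x : Fin N → ℝ => F (Fin.cons r x : Fin (N + 1) → ℝ)) = E1 μ t F F r := rfl
      have e6 : ZZ μ t (fun x : Fin N → ℝ => F (Fin.cons r x : Fin (N + 1) → ℝ)) = Z r := rfl
      rw [e5, e6] at h1
      show E1 μ t F f r - C / t * (t * E1 μ t F F r - Real.log (Z r)) + G r * (s - r) ≤ Φb s
      have e7 : ∫ x, Φ (Fin.cons s x : Fin (N + 1) → ℝ) ∂(Measure.pi fun _ : Fin N => μ) = Φb s := rfl
      rw [e7] at h1
      linarith
    -- the density of the first coordinate
    set hd : ℝ → ℝ := fun r => Z r / I with hhd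
    have ghd : G1 hd := by
      have := gZ.mul (G1.const I⁻¹)
      simpa [hhd, div_eq_mul_inv] using this
    have hhd0 : ∀ r, 0 ≤ hd r := fun r => (div_pos (hZp r) hIp).le
    have hhd1 : ∫ r, hd r ∂μ = 1 := by
      rw [hhd, integral_div]
      exact div_self hIp.ne'
    have hpaste := paste hμ ghd gΦb gR gG hhd0 hhd1 step xm
    have hfub : ∫ s, Φb s ∂μ = ∫ x, Φ x ∂(Measure.pi fun _ : Fin (N + 1) => μ) := (Gr.fubini hμ hΦ).symm
    rw [hfub] at hpaste
    -- the one coordinate lemma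
    set y : ℝ → ℝ := fun r => Real.log (Z r) - Real.log (Z xm) with hy
    have hexpy : ∀ r, Real.exp (y r) = Z r / Z xm := by
      intro r
      rw [hy]
      simp only
      rw [Real.exp_sub, Real.exp_log (hZp r), Real.exp_log (hZp xm)]
    have hIy : ∫ u, Real.exp (y u) ∂μ = I / Z xm := by
      simp_rw [hexpy]
      rw [integral_div]
    have hdens : (fun r => Real.exp (y r) / ∫ u, Real.exp (y u) ∂μ) = hd := by
      funext r
      rw [hIy, hexpy, hhd]
      have := (hZp xm).ne'
      field_simp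
    have hg0 : 0 ≤ G xm := Gd_nonneg hμ h ht0' xm
    have hg1 : G xm ≤ 1 := Gd_le_one hμ h ht0' xm
    have hsite := hone (t * G xm) (G xm) y G ((glZ.sub (G1.const _)).meas) gG.meas (by positivity)
      (by nlinarith) hg0 (by
        intro r
        rcases le_total xm r with hr | hr
        · have h1 := Z1_mono hμ h ht0' hr
          have h2 := Z1_le hμ h ht0' ht1 hr
          have hr0 : 0 ≤ r - xm := sub_nonneg.2 hr
          rw [abs_of_nonneg hr0]
          have h3 : 0 ≤ y r := by
            have := Real.log_le_log (hZp xm) h1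
            show 0 ≤ Real.log (Z r) - Real.log (Z xm)
            linarith
          rw [abs_of_nonneg h3]
          have h4 : Z r / Z xm ≤ 1 + t * G xm * ((r - xm) * Real.exp (2 * (r - xm))) := by
            rw [div_le_iff₀ (hZp xm)]
            exact h2
          rw [← hexpy] at h4
          have h5 := Real.add_one_le_exp (y r)
          linarith
        · have h1 := Z1_mono hμ h ht0' hr
          have h2 := Z1_ge' hμ h ht0' hr
          have hr0 : r - xm ≤ 0 := sub_nonpos.2 hr
          rw [abs_of_nonpos hr0]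
          have h3 : y r ≤ 0 := by
            have := Real.log_le_log (hZp r) h1
            show Real.log (Z r) - Real.log (Z xm) ≤ 0
            linarith
          rw [abs_of_nonpos h3]
          have h4 := Real.log_le_log (mul_pos (Real.exp_pos _) (hZp xm)) h2
          rw [Real.log_mul (Real.exp_pos _).ne' (hZp xm).ne', Real.log_exp] at h4
          have h5 : -y r ≤ t * G xm * (xm - r) := by
            show -(Real.log (Z r) - Real.log (Z xm)) ≤ _
            linarith
          refine h5.trans ?_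
          have h6 : 1 ≤ Real.exp (2 * -(r - xm)) := Real.one_le_exp (by linarith)
          have h7 : xm - r ≤ -(r - xm) * Real.exp (2 * -(r - xm)) := by nlinarith
          exact mul_le_mul_of_nonneg_left h7 (by positivity))
      (fun r => abs_log_Z1 hμ h ht0' ht1 r xm)
      (by
        intro r s hrs
        have := Real.log_le_log (hZp r) (Z1_mono hμ h ht0' hrs)
        show Real.log (Z r) - Real.log (Z xm) ≤ Real.log (Z s) - Real.log (Z xm)
        linarith)
      (by
        have h2 := Z1_ge hμ h ht0' hx.le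
        have h4 := Real.log_le_log (mul_pos (Real.exp_pos _) (hZp xm)) h2
        rw [Real.log_mul (Real.exp_pos _).ne' (hZp xm).ne', Real.log_exp] at h4
        show t * G xm * (xp - xm) ≤ Real.log (Z xp) - Real.log (Z xm)
        linarith)
      (Gd_nonneg hμ h ht0') (fun r => Gd_har hμ h ht0' ht1 r xm)
    rw [hdens] at hsite
    obtain ⟨hs1, hs2⟩ := hsite
    -- the entropy of the first coordinate
    set Ent := ∫ r, hd r * (Real.log (Z r) - Real.log I) ∂μ with hEnt
    have hEnt' : ∫ r, Real.exp (y r) / (∫ u, Real.exp (y u) ∂μ) *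
        (y r - Real.log (∫ u, Real.exp (y u) ∂μ)) ∂μ = Ent := by
      rw [hEnt]
      apply integral_congr_ae
      filter_upwards with r
      have e1 : Real.exp (y r) / ∫ u, Real.exp (y u) ∂μ = hd r := congrFun hdens r
      rw [e1, hIy, Real.log_div hIp.ne' (hZp xm).ne']
      show hd r * (Real.log (Z r) - Real.log (Z xm) - (Real.log I - Real.log (Z xm))) = _
      ring
    rw [hEnt'] at hs2
    have hEnt0 : 0 ≤ Ent := le_trans (by positivity) hs2
    have hK : (if 0 < ∫ r, pp hd r ∂μ then KK μ hd G xm else 0) ≤ C / t * Ent := by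
      split_ifs with hcase
      · have h1 := hs1 hcase
        have h2 : C1 * (G xm * (t * G xm)) = C / t * (c1 * (t * G xm) ^ 2) := by
          rw [hC]
          field_simp
        rw [h2] at h1
        refine h1.trans ?_
        exact mul_le_mul_of_nonneg_left hs2 (by positivity)
      · positivity
    -- the chain rule
    have gEfh : G1 fun r => hd r * E1 μ t F f r := ghd.mul gEf
    have gEFh : G1 fun r => hd r * E1 μ t F F r := ghd.mul gEF
    have gLh : G1 fun r => hd r * Real.log (Z r) := ghd.mul glZ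
    have f1 : ∫ r, hd r * R r ∂μ = ∫ r, hd r * E1 μ t F f r ∂μ -
        C / t * (t * ∫ r, hd r * E1 μ t F F r ∂μ - ∫ r, hd r * Real.log (Z r) ∂μ) := by
      have e1 : (fun r => hd r * R r) = fun r => hd r * E1 μ t F f r -
          C / t * (t * (hd r * E1 μ t F F r) - hd r * Real.log (Z r)) := by
        funext r
        rw [hR]
        ring
      rw [e1]
      have j1 : Integrable (fun r => t * (hd r * E1 μ t F F r)) μ := ((G1.const t).mul gEFh).integrable hμ
      have j2 : Integrable (fun r => C / t * (t * (hd r * E1 μ t F F r) - hd r * Real.log (Z r))) μ :=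
        ((G1.const (C / t)).mul (((G1.const t).mul gEFh).sub gLh)).integrable hμ
      rw [integral_sub (gEfh.integrable hμ) j2, integral_const_mul, integral_sub j1 (gLh.integrable hμ),
        integral_const_mul]
    have f2 : Ent = ∫ r, hd r * Real.log (Z r) ∂μ - Real.log I := by
      rw [hEnt]
      have e1 : ∀ r, hd r * (Real.log (Z r) - Real.log I) = hd r * Real.log (Z r) - hd r * Real.log I :=
        fun r => by ring
      simp_rw [e1]
      rw [integral_sub (gLh.integrable hμ) ((ghd.mul (G1.const _)).integrable hμ), integral_mul_const, hhd1,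
        one_mul]
    have f3 : EE μ t F f = ∫ r, hd r * E1 μ t F f r ∂μ := EE_eq hμ h ht0' hf
    have f4 : EE μ t F F = ∫ r, hd r * E1 μ t F F r ∂μ := EE_eq hμ h ht0' h.GrF
    have f5 : ZZ μ t F = I := ZZ_eq hμ h ht0'
    rw [f3, f4, f5]
    rw [f1] at hpaste
    have f6 : C / t * (t * ∫ r, hd r * E1 μ t F F r ∂μ - Real.log I) =
        C / t * (t * ∫ r, hd r * E1 μ t F F r ∂μ - ∫ r, hd r * Real.log (Z r) ∂μ) + C / t * Ent := by
      rw [f2]
      ring
    rw [f6]
    linarith

end

end Pool.Agent.W_7d29a1_LE
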